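import Pool.Agent.Helper548.LoopInd

/-!
# Class three: the alternating forms for arbitrary inner mappings

`Al Q` says that `Q` has nilpotency class at most three.  We extend the identities of
`LoopPsi` to arbitrary inner mappings; no assumption on the number of generators is made.
-/

namespace LpAim
namespace H56

open Equiv

universe u v

section class3
variable {Q : Type u} [Loop Q] (hQ : AIM Q) (hA : Al Q)

include hQ hA

theorem th_12_self (x b w : Q) : th x x b w = 0 := by
  rw [th_13 hQ hA x x b w, th_23_self hQ hA, neg_zero]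

theorem th_13_self (x b w : Q) : th x b x w = 0 := by
  rw [th_12 hQ hA x b x w, th_23_self hQ hA, neg_zero]

theorem th_24_self (a x b : Q) : th a x b x = 0 := by
  rw [th_34 hQ hA a x b x, th_23_self hQ hA, neg_zero]

theorem th_34_self (a b x : Q) : th a b x x = 0 := by
  rw [th_23 hQ hA a b x x, th_24_self hQ hA, neg_zero]

theorem ps_35_self (a b x y : Q) : ps a b x y x = 0 := by
  rw [ps_45 hQ hA, ps_34_self hQ hA, neg_zero]

theorem ps_45_self (a b y x : Q) : ps a b y x x = 0 := by
  rw [ps_34 hQ hA a b x y x, ps_35_self hQ hA, neg_zero]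

theorem ps_12_self (x a b w : Q) : ps x x a b w = 0 := by
  rw [ps_s hQ hA, ps_34_self hQ hA]

theorem ps_13_self (x a b w : Q) : ps x a x b w = 0 := by
  rw [ps_23 hQ hA x x a b w, ps_12_self hQ hA, neg_zero]

theorem ps_23_self (a x b w : Q) : ps a x x b w = 0 := by
  rw [ps_12 hQ hA x a x b w, ps_13_self hQ hA, neg_zero]

theorem ps_14_self (x a b w : Q) : ps x a b x w = 0 := by
  rw [ps_34 hQ hA x a x b w, ps_13_self hQ hA, neg_zero]

theorem ps_15_self (x a b w : Q) : ps x a b w x = 0 := by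
  rw [ps_45 hQ hA x a b x w, ps_14_self hQ hA, neg_zero]

theorem ps_24_self (a x b w : Q) : ps a x b x w = 0 := by
  rw [ps_34 hQ hA a x x b w, ps_23_self hQ hA, neg_zero]

theorem ps_25_self (a x b w : Q) : ps a x b w x = 0 := by
  rw [ps_45 hQ hA a x b x w, ps_24_self hQ hA, neg_zero]

theorem ps_add1 (x y a b c d : Q) : ps (x * y) a b c d = ps x a b c d + ps y a b c d := by
  rw [ps_13 hQ hA b a (x * y) c d, ps_add3 hQ hA, ps_13 hQ hA b a x c d, ps_13 hQ hA b a y c d]
  abel

theorem ps_add2 (a x y b c d : Q) : ps a (x * y) b c d = ps a x b c d + ps a y b c d := by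
  rw [ps_12 hQ hA (x * y) a b c d, ps_add1 hQ hA, ps_12 hQ hA x a b c d, ps_12 hQ hA y a b c d]
  abel

theorem ps_add4 (a b c x y d : Q) : ps a b c (x * y) d = ps a b c x d + ps a b c y d := by
  rw [ps_34 hQ hA a b (x * y) c d, ps_add3 hQ hA, ps_34 hQ hA a b x c d, ps_34 hQ hA a b y c d]
  abel

theorem ps_add5 (a b c d x y : Q) : ps a b c d (x * y) = ps a b c d x + ps a b c d y := by
  rw [ps_45 hQ hA a b c (x * y) d, ps_add4 hQ hA, ps_45 hQ hA a b c x d, ps_45 hQ hA a b c y d]
  abel

theorem ta_22_self (x w : Q) : ta x x w = 0 := by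
  rw [ta_23 hQ hA, ta_12 hQ hA, ta_23_self, neg_zero]

theorem ta_13_self (x w : Q) : ta x w x = 0 := by
  rw [ta_12 hQ hA, ta_23_self]

/-- alternation for an arbitrary inner mapping: first transposition -/
theorem G_swap12 {G : Perm Q} (hG : G ∈ St (1 : Q)) (a b c : Q) :
    Ph G (l b a) c = - Ph G (l a b) c := by
  refine gens_induction (P := fun G => Ph G (l b a) c = - Ph G (l a b) c)
    ?_ ?_ ?_ ?_ ?_ ?_ G hG
  · intro x; exact th_23 hQ hA x b a c
  · intro x y; exact ps_34 hQ hA x y a b c
  · intro x y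
    rw [Ph_symm hQ hA (r_mem x y) (l_mem b a), Ph_symm hQ hA (r_mem x y) (l_mem a b),
      Ph_r hQ hA (l_mem b a), Ph_r hQ hA (l_mem a b)]
    exact congrArg Neg.neg (ps_12 hQ hA a b c x y)
  · rw [Ph_one_left, Ph_one_left, neg_zero]
  · intro g h hg hh h1 h2
    rw [Ph_mul_left hg hh (hA _ (l_mem b a) c), Ph_mul_left hg hh (hA _ (l_mem a b) c), h1, h2]
    abel
  · intro g hg h1
    rw [Ph_inv_left hg (hA _ (l_mem b a) c), Ph_inv_left hg (hA _ (l_mem a b) c), h1]

theorem G_swap23 {G : Perm Q} (hG : G ∈ St (1 : Q)) (a b c : Q) :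
    Ph G (l a c) b = - Ph G (l a b) c := by
  refine gens_induction (P := fun G => Ph G (l a c) b = - Ph G (l a b) c)
    ?_ ?_ ?_ ?_ ?_ ?_ G hG
  · intro x; exact th_34 hQ hA x a c b
  · intro x y; exact ps_45 hQ hA x y a b c
  · intro x y
    rw [Ph_symm hQ hA (r_mem x y) (l_mem a c), Ph_symm hQ hA (r_mem x y) (l_mem a b),
      Ph_r hQ hA (l_mem a c), Ph_r hQ hA (l_mem a b)]
    exact congrArg Neg.neg (ps_23 hQ hA a b c x y)
  · rw [Ph_one_left, Ph_one_left, neg_zero]
  · intro g h hg hh h1 h2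
    rw [Ph_mul_left hg hh (hA _ (l_mem a c) b), Ph_mul_left hg hh (hA _ (l_mem a b) c), h1, h2]
    abel
  · intro g hg h1
    rw [Ph_inv_left hg (hA _ (l_mem a c) b), Ph_inv_left hg (hA _ (l_mem a b) c), h1]

theorem G_self12 {G : Perm Q} (hG : G ∈ St (1 : Q)) (a c : Q) :
    Ph G (l a a) c = 0 := by
  refine gens_induction (P := fun G => Ph G (l a a) c = 0)
    ?_ ?_ ?_ ?_ ?_ ?_ G hG
  · intro x; exact th_23_self hQ hA x a c
  · intro x y; exact ps_34_self hQ hA x y a c
  · intro x y
    rw [Ph_symm hQ hA (r_mem x y) (l_mem a a), Ph_r hQ hA (l_mem a a)]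
    have := ps_12_self hQ hA a c x y
    unfold ps at this
    rw [this, neg_zero]
  · exact Ph_one_left
  · intro g h hg hh h1 h2
    rw [Ph_mul_left hg hh (hA _ (l_mem a a) c), h1, h2, add_zero]
  · intro g hg h1
    rw [Ph_inv_left hg (hA _ (l_mem a a) c), h1, neg_zero]

theorem G_self13 {G : Perm Q} (hG : G ∈ St (1 : Q)) (a b : Q) :
    Ph G (l a b) a = 0 := by
  rw [G_swap23 hQ hA hG a a b, G_self12 hQ hA hG, neg_zero]

theorem G_self23 {G : Perm Q} (hG : G ∈ St (1 : Q)) (a b : Q) :
    Ph G (l a b) b = 0 := by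
  rw [G_swap12 hQ hA hG b a b, G_self13 hQ hA hG, neg_zero]

/-- the pairing at a product, in terms of the correction `mm` -/
theorem Ph_mm {G g : Perm Q} (hG : G ∈ St (1 : Q)) (hg : g ∈ St (1 : Q)) (w u : Q) :
    Ph G (mm g w) u = Ph G g (w * u) - Ph G g w := by
  rw [Ph_mul_arg hQ hA hG hg w u]; abel

theorem th_sq1 (x a b w : Q) : th (x * x) a b w = th x a b w + th x a b w := by
  have h := rel1' hQ hA a b x x w
  rw [ps_34_self hQ hA, smul_zero] at h
  linear_combination (norm := abel) h

theorem th_sq2 (p x a b : Q) : th p (x * x) a b = th p x a b + th p x a b := by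
  rw [th_12 hQ hA p (x * x), th_sq1 hQ hA, th_12 hQ hA p x]; abel

theorem th_sq4 (p a b x : Q) : th p a b (x * x) = th p a b x + th p a b x := by
  rw [th_14 hQ hA p a b (x * x), th_sq1 hQ hA, th_14 hQ hA p a b x]; abel

/-- the pairing at a square -/
theorem Ph_sq {G S : Perm Q} (hG : G ∈ St (1 : Q)) (hS : S ∈ St (1 : Q)) (x : Q) :
    Ph G S (x * x) = Ph G S x + Ph G S x := by
  -- induction on `S`
  have key : ∀ S ∈ St (1 : Q), ∀ G ∈ St (1 : Q), Ph G S (x * x) = Ph G S x + Ph G S x := by
    refine gens_induction ?_ ?_ ?_ ?_ ?_ ?_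
    · intro b
      refine gens_induction ?_ ?_ ?_ ?_ ?_ ?_
      · intro a
        have h1 : ta a b (x * x) = 0 := by rw [ta_23 hQ hA, ta_sq hQ hA, neg_zero]
        have h2 := ta_two hQ hA a b x
        exact h1.trans h2.symm
      · intro p q
        rw [Ph_symm hQ hA (l_mem p q) (T_mem b), Ph_symm hQ hA (l_mem p q) (T_mem b)]
        exact th_sq4 hQ hA b p q x
      · intro p q
        rw [Ph_symm hQ hA (r_mem p q) (T_mem b), Ph_symm hQ hA (r_mem p q) (T_mem b),
          Ph_r hQ hA (T_mem b), Ph_r hQ hA (T_mem b)]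
        have := th_sq2 hQ hA b x p q
        unfold th at this
        rw [this]; abel
      · rw [Ph_one_left, Ph_one_left, add_zero]
      · intro g h hg hh h1 h2
        rw [Ph_mul_left hg hh (hA _ (T_mem b) _), Ph_mul_left hg hh (hA _ (T_mem b) _), h1, h2]
        abel
      · intro g hg h1
        rw [Ph_inv_left hg (hA _ (T_mem b) _), Ph_inv_left hg (hA _ (T_mem b) _), h1]
        abel
    · intro a b
      refine gens_induction ?_ ?_ ?_ ?_ ?_ ?_
      · intro p
        exact th_sq4 hQ hA p a b x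
      · intro p q
        exact ps_add5 hQ hA p q a b x x
      · intro p q
        rw [Ph_symm hQ hA (r_mem p q) (l_mem a b), Ph_symm hQ hA (r_mem p q) (l_mem a b),
          Ph_r hQ hA (l_mem a b), Ph_r hQ hA (l_mem a b)]
        have := ps_add3 hQ hA a b x x p q
        unfold ps at this
        rw [this]; abel
      · rw [Ph_one_left, Ph_one_left, add_zero]
      · intro g h hg hh h1 h2
        rw [Ph_mul_left hg hh (hA _ (l_mem a b) _), Ph_mul_left hg hh (hA _ (l_mem a b) _), h1, h2]
        abel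
      · intro g hg h1
        rw [Ph_inv_left hg (hA _ (l_mem a b) _), Ph_inv_left hg (hA _ (l_mem a b) _), h1]
        abel
    · intro a b G hG
      rw [Ph_r hQ hA hG, Ph_r hQ hA hG]
      revert G
      refine gens_induction ?_ ?_ ?_ ?_ ?_ ?_
      · intro p
        have := th_sq2 hQ hA p x a b
        unfold th at this
        rw [this]; abel
      · intro p q
        have := ps_add3 hQ hA p q x x a b
        unfold ps at this
        rw [this]; abel
      · intro p q
        rw [Ph_symm hQ hA (r_mem p q) (l_mem _ _), Ph_symm hQ hA (r_mem p q) (l_mem _ _),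
          Ph_r hQ hA (l_mem _ _), Ph_r hQ hA (l_mem _ _)]
        have := ps_add1 hQ hA x x a b p q
        unfold ps at this
        rw [this]; abel
      · simp only [Ph_one_left, neg_zero, add_zero]
      · intro g h hg hh h1 h2
        rw [Ph_mul_left hg hh (hA _ (l_mem _ _) _), Ph_mul_left hg hh (hA _ (l_mem _ _) _)]
        linear_combination (norm := abel) h1 + h2
      · intro g hg h1
        rw [Ph_inv_left hg (hA _ (l_mem _ _) _), Ph_inv_left hg (hA _ (l_mem _ _) _)]
        linear_combination (norm := abel) -h1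
    · intro G hG
      rw [Ph_symm hQ hA hG (one_mem _), Ph_symm hQ hA hG (one_mem _), Ph_one_left, Ph_one_left,
        add_zero]
    · intro g h hg hh h1 h2 G hG
      rw [Ph_mul_right hQ hA hG hg hh, Ph_mul_right hQ hA hG hg hh, h1 G hG, h2 G hG]
      abel
    · intro g hg h1 G hG
      rw [Ph_inv_right hQ hA hG hg, Ph_inv_right hQ hA hG hg, h1 G hG]
      abel
  exact key S hS G hG

end class3

end H56
end LpAim
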