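import Pool.Agent.NH56.AimC3

/-!
# Derived elements, the group `E2` and the second-order pairing
-/

namespace LpAim
namespace H56

open Equiv

universe u v

section general
variable {Q : Type u} [Loop Q]

theorem Der_L_mem {c : Q} (hc : Der c) : L c ∈ NN Q := by
  obtain ⟨k, hk, e⟩ := hc
  have h1 : k⁻¹ * L c ∈ St (1 : Q) := by
    refine ⟨(Mlt Q).mul_mem ((Mlt Q).inv_mem (NN_le hk)) (LpAim.L_mem c), ?_⟩
    show (k⁻¹ * L c) 1 = 1
    rw [Perm.mul_apply, L_apply, lmul_one, ← e, pia]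
  have h2 : L c = k * (k⁻¹ * L c) := by group
  rw [h2]
  exact mul_mem hk (St_le_NN _ h1)

theorem Der_ld {c d : Q} (hc : Der c) (hd : Der d) : Der (ld c d) :=
  hd.apply (g := (L c)⁻¹) ((NN Q).inv_mem (Der_L_mem hc))

theorem Der_rd {c d : Q} (hc : Der c) (hd : Der d) : Der (rd d c) :=
  hd.apply (g := (R c)⁻¹) ((NN Q).inv_mem hc.R_mem)

theorem Der_St {c : Q} (hc : Der c) {g : Perm Q} (hg : g ∈ St (1 : Q)) : Der (g c) :=
  hc.apply (St_le_NN _ hg)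

/-- derived modulo the center -/
def DZ (c : Q) : Prop := ∃ z : Zn Q, Der (c * z.val)

theorem DZ_of {c : Q} (h : Der c) : DZ c := ⟨0, by rwa [mul_zero_z]⟩

theorem DZ_zn (z : Zn Q) : DZ z.val := ⟨-z, by
  have h1 : z.val * (-z).val = 1 := by rw [← Zn.val_add, add_neg_cancel, Zn.val_zero]
  rw [h1]; exact der_one⟩

theorem mul_mul_zz (a b : Q) (z w : Zn Q) :
    (a * z.val) * (b * w.val) = (a * b) * (z + w).val := by
  rw [w.Lz, z.Rz, ← mul_add_z]

theorem DZ_mul {a b : Q} (ha : DZ a) (hb : DZ b) : DZ (a * b) := by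
  obtain ⟨z, hz⟩ := ha
  obtain ⟨w, hw⟩ := hb
  refine ⟨z + w, ?_⟩
  rw [← mul_mul_zz]
  exact hz.mul hw

theorem mul_right_z_cancel {a b : Q} (z : Zn Q) (h : a * z.val = b * z.val) : a = b :=
  (mul_right_cancel_iff' _ _ _).1 h

theorem DZ_inv {a : Q} (ha : DZ a) : DZ (ld a 1) := by
  obtain ⟨z, hz⟩ := ha
  refine ⟨-z, ?_⟩
  have h1 := Der_ld hz der_one
  have h2 : ld a 1 * (-z).val = ld (a * z.val) 1 := by
    rw [eq_ld_iff, mul_mul_zz, mul_ld, add_neg_cancel, Zn.val_zero, lmul_one]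
  rw [h2]; exact h1

theorem IsZ2_inv {a : Q} (ha : IsZ2 a) : IsZ2 (ld a 1) :=
  isZ2_of_z (-ha.toZ) rfl

theorem IsZ2_zn (z : Zn Q) : IsZ2 z.val := isZ2_of_z 0 (by
  rw [Zn.val_zero, ← pz_one, eq_comm, pz_eq]
  have := cen_mul (1 : Q) z
  rwa [lone_mul] at this)

theorem K1_l_right {c : Q} (hc : IsZ2 c) (z : Q) : K1 (l z c) := by
  refine ⟨l_mem_Mlt z c, fun x => ?_⟩
  rw [← pz_eq, map_l (f := (pz : Q → QZ Q)) pz_mul, ← hc.toZ_val, l_apply, eq_ld_iff,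
    hc.toZ.comm, hc.toZ.Lz, hc.toZ.Rz]

theorem K1_l_left {c : Q} (hc : IsZ2 c) (z : Q) : K1 (l c z) := by
  refine ⟨l_mem_Mlt c z, fun x => ?_⟩
  rw [← pz_eq, map_l (f := (pz : Q → QZ Q)) pz_mul, ← hc.toZ_val, l_apply, eq_ld_iff,
    hc.toZ.comm, hc.toZ.comm, hc.toZ.Rz]

theorem K1_A_right {c : Q} (hc : IsZ2 c) (z : Q) : K1 (A z c) := by
  refine ⟨A_mem_Mlt z c, fun x => ?_⟩
  rw [← pz_eq, map_A (f := (pz : Q → QZ Q)) pz_mul, ← hc.toZ_val, A_apply, eq_ld_iff,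
    eq_rd_iff, hc.toZ.Lz]

theorem K1_A_left {c : Q} (hc : IsZ2 c) (z : Q) : K1 (A c z) := by
  refine ⟨A_mem_Mlt c z, fun x => ?_⟩
  rw [← pz_eq, map_A (f := (pz : Q → QZ Q)) pz_mul, ← hc.toZ_val, A_apply, eq_ld_iff,
    eq_rd_iff, hc.toZ.comm, hc.toZ.comm, hc.toZ.Rz]

theorem K1_T {c : Q} (hc : IsZ2 c) : K1 (T c) := by
  refine ⟨T_mem_Mlt c, fun x => ?_⟩
  rw [← pz_eq, map_T (f := (pz : Q → QZ Q)) pz_mul, ← hc.toZ_val, T_apply, hc.toZ.comm, mul_rd]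

/-- central translations commute with everything: a useful form -/
theorem cen_mul_z {x y : Q} (h : (cen Q) x y) : ∃ z : Zn Q, y = x * z.val := (cen_iff' x y).1 h

end general

section aim
variable {Q : Type u} [Loop Q] (hQ : AIM Q)

include hQ

theorem assocP_der {a b P : Q} (hb : Der b) (hP : IsZ2 P) : a * (b * P) = (a * b) * P := by
  have hK := K1_commR hP (L_mem a)
  have h1 : ((L a)⁻¹ * (R P)⁻¹ * L a * R P) 1 = 1 := by
    simp only [Perm.mul_apply, R_apply, L_apply, lone_mul]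
    rw [R_inv_apply, mul_rd, L_inv_apply, ld_self]
  have h2 := hK.fix_der hQ h1 hb
  simp only [Perm.mul_apply, R_apply, L_apply] at h2
  rw [L_inv_apply, R_inv_apply] at h2
  have h3 := (eq_ld_iff _ _ _).1 h2.symm
  exact ((eq_rd_iff _ _ _).1 h3).symm

theorem assocP {a b P : Q} (hb : DZ b) (hP : IsZ2 P) : a * (b * P) = (a * b) * P := by
  obtain ⟨z, hz⟩ := hb
  have h := assocP_der hQ (a := a) hz hP
  rw [z.Rz, z.Lz, z.Lz, z.Rz] at h
  exact mul_right_z_cancel z h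

theorem comm_DZ {P b : Q} (hP : IsZ2 P) (hb : DZ b) : P * b = b * P := by
  obtain ⟨z, hz⟩ := hb
  have h := hP.comm_der hQ hz
  rw [z.Lz, z.Rz] at h
  exact mul_right_z_cancel z h

theorem swapP_der {a b P : Q} (ha : Der a) (hb : Der b) (hP : IsZ2 P) :
    (a * P) * b = (a * b) * P := by
  have hK := K1_commR hP (R_mem b)
  have h1 : ((R b)⁻¹ * (R P)⁻¹ * R b * R P) 1 = 1 := by
    simp only [Perm.mul_apply, R_apply, lone_mul]
    rw [R_inv_apply, R_inv_apply, hP.comm_der hQ hb, mul_rd, rd_self]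
  have h2 := hK.fix_der hQ h1 ha
  simp only [Perm.mul_apply, R_apply] at h2
  rw [R_inv_apply, R_inv_apply] at h2
  have h3 := (eq_rd_iff _ _ _).1 h2.symm
  exact ((eq_rd_iff _ _ _).1 h3).symm

theorem swapP {a b P : Q} (ha : DZ a) (hb : DZ b) (hP : IsZ2 P) :
    (a * P) * b = (a * b) * P := by
  obtain ⟨z, hz⟩ := ha
  obtain ⟨w, hw⟩ := hb
  have h := swapP_der hQ hz hw hP
  have e1 : ((a * z.val) * P) * (b * w.val) = ((a * P) * b) * (z + w).val := by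
    rw [z.Rz, mul_mul_zz]
  have e2 : ((a * z.val) * (b * w.val)) * P = ((a * b) * P) * (z + w).val := by
    rw [mul_mul_zz, (z + w).Rz]
  rw [e1, e2] at h
  exact mul_right_z_cancel _ h

theorem l_fix {c P z : Q} (hc : IsZ2 c) (hP : Der P) : z * (c * P) = (z * c) * P := by
  have h := (K1_l_right hc z).fix_der hQ (l_mem z c).2 hP
  rw [l_apply] at h
  exact ((eq_ld_iff _ _ _).1 h.symm).symm

theorem A_fix {c P z : Q} (hc : IsZ2 c) (hP : Der P) : z * (P * c) = (z * P) * c := by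
  have h := (K1_A_right hc z).fix_der hQ (A_mem z c).2 hP
  rw [A_apply] at h
  have h3 := (eq_ld_iff _ _ _).1 h.symm
  exact ((eq_rd_iff _ _ _).1 h3).symm

/-- second-center translations and derived translations commute -/
theorem swapR {c P z : Q} (hc : IsZ2 c) (hP : Der P) : (z * c) * P = (z * P) * c := by
  rw [← l_fix hQ hc hP, hc.comm_der hQ hP, A_fix hQ hc hP]

end aim

/-! ### the group `E2` -/

section E2
variable {Q : Type u} [Loop Q]

/-- second-center elements which are derived modulo the center -/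
def E2 (_ : AIM Q) : Type u := {P : Q // IsZ2 P ∧ DZ P}

variable {hQ : AIM Q}

def E2.val (a : E2 hQ) : Q := a.1

theorem E2.z2 (a : E2 hQ) : IsZ2 a.val := a.2.1
theorem E2.dz (a : E2 hQ) : DZ a.val := a.2.2

theorem E2.ext' {a b : E2 hQ} (h : a.val = b.val) : a = b := Subtype.ext h

instance : Add (E2 hQ) := ⟨fun a b => ⟨a.val * b.val, a.z2.mul b.z2, DZ_mul a.dz b.dz⟩⟩
instance : Zero (E2 hQ) := ⟨⟨1, isZ2_one, DZ_of der_one⟩⟩
instance : Neg (E2 hQ) := ⟨fun a => ⟨ld a.val 1, IsZ2_inv a.z2, DZ_inv a.dz⟩⟩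

theorem E2.val_add (a b : E2 hQ) : (a + b).val = a.val * b.val := rfl
theorem E2.val_zero : (0 : E2 hQ).val = 1 := rfl
theorem E2.val_neg (a : E2 hQ) : (-a).val = ld a.val 1 := rfl

instance : AddCommGroup (E2 hQ) where
  add_assoc a b c := E2.ext' (assocP hQ b.dz c.z2).symm
  zero_add a := E2.ext' (lone_mul _)
  add_zero a := E2.ext' (lmul_one _)
  neg_add_cancel a := E2.ext' (by
    rw [E2.val_add, E2.val_neg, E2.val_zero, comm_DZ hQ (IsZ2_inv a.z2) a.dz, mul_ld])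
  add_comm a b := E2.ext' (comm_DZ hQ a.z2 b.dz)
  nsmul := nsmulRec
  zsmul := zsmulRec

/-- the inclusion of the center -/
def io (z : Zn Q) : E2 hQ := ⟨z.val, IsZ2_zn z, DZ_zn z⟩

theorem io_val (z : Zn Q) : (io z : E2 hQ).val = z.val := rfl
theorem io_add (z w : Zn Q) : (io (z + w) : E2 hQ) = io z + io w := rfl
theorem io_zero : (io 0 : E2 hQ) = 0 := rfl
theorem io_inj {z w : Zn Q} (h : (io z : E2 hQ) = io w) : z = w :=
  Zn.ext (congrArg E2.val h)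
theorem io_neg (z : Zn Q) : (io (-z) : E2 hQ) = - io z := by
  rw [eq_neg_iff_add_eq_zero, ← io_add, neg_add_cancel, io_zero]
theorem io_sub (z w : Zn Q) : (io (z - w) : E2 hQ) = io z - io w := by
  rw [sub_eq_add_neg, io_add, io_neg, sub_eq_add_neg]

/-- two elements of `E2` with the same translate of a given element agree -/
theorem E2.cancel {x : Q} {a b : E2 hQ} (h : x * a.val = x * b.val) : a = b :=
  E2.ext' ((mul_left_cancel_iff' _ _ _).1 h)

theorem mul_add_e (x : Q) (a b : E2 hQ) : x * (a + b).val = (x * a.val) * b.val := by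
  rw [E2.val_add, assocP hQ a.dz b.z2]

theorem mul_zero_e (x : Q) : x * (0 : E2 hQ).val = x := by rw [E2.val_zero, lmul_one]

theorem mul_swap_e {a b : Q} (ha : DZ a) (hb : DZ b) (P P' : E2 hQ) :
    (a * P.val) * (b * P'.val) = (a * b) * (P + P').val := by
  rw [assocP hQ hb P'.z2, swapP hQ ha hb P.z2, mul_add_e]

theorem zt_add_e {h : Perm Q} (hh : h ∈ St (1 : Q)) (a b : E2 hQ) :
    zt h (a + b).val = zt h a.val + zt h b.val := by
  obtain ⟨z, hz⟩ := a.dz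
  have e1 : zt h ((a.val * z.val) * b.val) = zt h (a.val * z.val) + zt h b.val := by
    refine zt_mul_right hQ hh ?_ b.z2 hz
    exact a.z2.mul (IsZ2_zn z)
  have e2 : zt h (a.val * z.val) = zt h a.val := zt_congr hh a.z2 (cen_mul _ z)
  have e3 : zt h ((a.val * z.val) * b.val) = zt h (a + b).val := by
    have : (a.val * z.val) * b.val = (a + b).val * z.val := by rw [z.Rz]; rfl
    rw [this]
    exact zt_congr hh (a + b).z2 (cen_mul _ z)
  rw [e3, e2] at e1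
  exact e1

theorem zt_io {h : Perm Q} (hh : h ∈ St (1 : Q)) (z : Zn Q) :
    zt h (io z : E2 hQ).val = 0 := by
  apply zt_of_eq
  rw [io_val, z.fix hh, mul_zero_z]

theorem zt_zero_e {h : Perm Q} (hh : h ∈ St (1 : Q)) :
    zt h (0 : E2 hQ).val = 0 := by
  rw [← io_zero, zt_io hh]

theorem zt_neg_e {h : Perm Q} (hh : h ∈ St (1 : Q)) (a : E2 hQ) :
    zt h (-a).val = - zt h a.val := by
  rw [eq_neg_iff_add_eq_zero, ← zt_add_e hh, neg_add_cancel, zt_zero_e hh]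

end E2

/-! ### permutations acting trivially modulo the second center -/

section K2
variable {Q : Type u} [Loop Q]

/-- permutations acting by second-center elements -/
def K2 (φ : Perm Q) : Prop := φ ∈ Mlt Q ∧ ∀ x, (cen (QZ Q)) (pz x) (pz (φ x))

theorem K2.z2 {φ : Perm Q} (h : K2 φ) (x : Q) : IsZ2 (ld x (φ x)) := by
  obtain ⟨z, hz⟩ := (cen_iff' _ _).1 (h.2 x)
  refine isZ2_of_z z ?_
  rw [pz_ld, hz, ld_mul]

theorem K2_of {φ : Perm Q} (h1 : φ ∈ Mlt Q) (h2 : ∀ x, ∃ z : Zn (QZ Q), pz (φ x) = pz x * z.val) :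
    K2 φ := ⟨h1, fun x => (cen_iff' _ _).2 (h2 x)⟩

theorem NN_induced {n : Perm Q} (hn : n ∈ NN Q) :
    ∃ n' ∈ NN (QZ Q), ∀ x, pz (n x) = n' (pz x) := by
  refine Subgroup.closure_induction
    (p := fun n _ => ∃ n' ∈ NN (QZ Q), ∀ x, pz (n x) = n' (pz x)) ?_ ?_ ?_ ?_ hn
  · rintro g ⟨x, hx⟩
    obtain ⟨g', hg', e⟩ := exists_induced (f := (pz : Q → QZ Q)) pz_mul hx.1
    refine ⟨g', St_le_NN (pz x) ⟨hg', ?_⟩, e⟩
    show g' (pz x) = pz x
    rw [← e]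
    have : g x = x := hx.2
    rw [this]
  · exact ⟨1, one_mem _, fun x => rfl⟩
  · rintro g h _ _ ⟨g', hg', eg⟩ ⟨h', hh', eh⟩
    exact ⟨g' * h', mul_mem hg' hh', fun x => by rw [Perm.mul_apply, eg, eh]; rfl⟩
  · rintro g _ ⟨g', hg', eg⟩
    refine ⟨g'⁻¹, inv_mem hg', fun x => ?_⟩
    rw [Perm.eq_inv_iff_eq, ← eg, pai]

theorem Der_pz {c : Q} (hc : Der c) : Der (pz c) := by
  obtain ⟨n, hn, rfl⟩ := hc
  obtain ⟨n', hn', e⟩ := NN_induced hn
  exact ⟨n', hn', by rw [← pz_one, ← e]⟩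

theorem K2_comm (hQ : AIM Q) {κ n : Perm Q} (hκ : K2 κ) (hn : n ∈ NN Q) :
    K1 (κ⁻¹ * n⁻¹ * κ * n) := by
  refine ⟨(Mlt Q).mul_mem ((Mlt Q).mul_mem ((Mlt Q).mul_mem ((Mlt Q).inv_mem hκ.1)
    ((Mlt Q).inv_mem (NN_le hn))) hκ.1) (NN_le hn), fun x => ?_⟩
  obtain ⟨κ', hκ', e⟩ := exists_induced (f := (pz : Q → QZ Q)) pz_mul hκ.1
  obtain ⟨n', hn', en⟩ := NN_induced hn
  have hK : K1 κ' := by
    refine ⟨hκ', fun X => ?_⟩
    obtain ⟨x, rfl⟩ := pz_surj X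
    have := hκ.2 x
    rwa [e] at this
  have hc := hK.commN (hQ.quot _ _) hn'
  have ei : ∀ y, pz (κ⁻¹ y) = κ'⁻¹ (pz y) := fun y => by
    rw [Perm.eq_inv_iff_eq, ← e, pai]
  have eni : ∀ y, pz (n⁻¹ y) = n'⁻¹ (pz y) := fun y => by
    rw [Perm.eq_inv_iff_eq, ← en, pai]
  rw [← pz_eq]
  simp only [Perm.mul_apply]
  rw [ei, eni, e, en]
  have h2 : κ' (n' (pz x)) = n' (κ' (pz x)) := by
    rw [← Perm.mul_apply, hc]; rfl
  rw [h2, pia, pia]

theorem K2_der (hQ : AIM Q) {κ : Perm Q} (hκ : K2 κ) (h1 : κ 1 = 1) {c : Q} (hc : Der c) :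
    κ c = c * (zt κ c).val := by
  apply dz_spec
  obtain ⟨n, hn, rfl⟩ := hc
  have hK := K2_comm hQ hκ hn
  have h2 := dz_spec (hK.2 1)
  set z := dz (1 : Q) ((κ⁻¹ * n⁻¹ * κ * n) 1) with hz
  have e : κ * n = n * κ * (κ⁻¹ * n⁻¹ * κ * n) := by group
  have e2 : κ (n 1) = n 1 * z.val := by
    calc κ (n 1) = (κ * n) 1 := rfl
      _ = (n * κ) ((κ⁻¹ * n⁻¹ * κ * n) 1) := by rw [e]; rfl
      _ = (n * κ) (1 * z.val) := by rw [h2]
      _ = n 1 * z.val := by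
        rw [Perm.mul_apply, z.act hκ.1, h1, z.act (NN_le hn)]
  rw [e2]
  exact cen_mul _ z

theorem K2_zt_mul (hQ : AIM Q) {κ : Perm Q} (hκ : K2 κ) (h1 : κ 1 = 1) {c d : Q} (hc : Der c)
    (hd : Der d) : zt κ (c * d) = zt κ c + zt κ d := by
  apply zt_of_eq
  have hK := K2_comm hQ hκ hd.R_mem
  have e : κ * R d = R d * κ * (κ⁻¹ * (R d)⁻¹ * κ * R d) := by group
  have hd' := K2_der hQ hκ h1 hd
  have hc' := K2_der hQ hκ h1 hc
  have v1 : (κ⁻¹ * (R d)⁻¹ * κ * R d) 1 = 1 * (zt κ d).val := by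
    simp only [Perm.mul_apply, R_apply, lone_mul]
    rw [hd']
    have : (R d)⁻¹ (d * (zt κ d).val) = (zt κ d).val := by
      rw [R_inv_apply]; symm; rw [eq_rd_iff, (zt κ d).comm]
    rw [this]
    have h2 := (zt κ d).act ((Mlt Q).inv_mem hκ.1) 1
    rw [lone_mul] at h2
    rw [h2]
    have : κ⁻¹ (1 : Q) = 1 := by rw [Perm.inv_eq_iff_eq, h1]
    rw [this, lone_mul]
  have v2 := hK.apply_der hQ hc
  rw [dz_eq v1] at v2
  calc κ (c * d) = (κ * R d) c := rfl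
    _ = (R d * κ) ((κ⁻¹ * (R d)⁻¹ * κ * R d) c) := by rw [e]; rfl
    _ = (R d * κ) (c * (zt κ d).val) := by rw [v2]
    _ = (c * d) * (zt κ c + zt κ d).val := by
      rw [Perm.mul_apply, (zt κ d).act hκ.1, R_apply, hc', (zt κ d).Rz, (zt κ c).Rz, mul_add_z]

end K2

end H56
end LpAim
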