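import Pool.Agent.NH56.AimD

/-!
# Loops of class at most four: the lifted pairing
-/

namespace LpAim
namespace H56

open Equiv

universe u v

section symm2
variable {Q : Type u} [Loop Q]

theorem K1_inv {φ : Perm Q} (h : K1 φ) : K1 φ⁻¹ := by
  refine ⟨(Mlt Q).inv_mem h.1, fun x => ?_⟩
  have := h.2 (φ⁻¹ x)
  rw [pai] at this
  exact (cen Q).symm this

theorem mm_spec (g : Perm Q) (w v : Q) : g (w * v) = g w * mm g w v := by
  simp only [mm, Perm.mul_apply, L_apply, L_inv_apply, mul_ld]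

/-- The fundamental symmetry, second form. -/
theorem zt_symm2 (hQ : AIM Q) {h g : Perm Q} (hh : h ∈ St (1 : Q)) (hg : g ∈ St (1 : Q))
    (hκ : K2 g) (x : Q) :
    zt h (ld x (g x)) = zt g (ld x (h x)) := by
  have hc : IsZ2 (ld x (g x)) := hκ.z2 x
  set c := ld x (g x) with hcdef
  set e := ld x (h x) with hedef
  have hxc : x * c = g x := mul_ld x _
  have hxe : x * e = h x := mul_ld x _
  have dc : Der c := der_ldS hg x
  have de : Der e := der_ldS hh x
  have u1 : (R e)⁻¹ * h ∈ St x := by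
    refine ⟨(Mlt Q).mul_mem ((Mlt Q).inv_mem (R_mem _)) hh.1, ?_⟩
    show ((R e)⁻¹ * h) x = x
    rw [Perm.mul_apply, ← hxe, R_inv_apply, mul_rd]
  have u2 : (R c)⁻¹ * g ∈ St x := by
    refine ⟨(Mlt Q).mul_mem ((Mlt Q).inv_mem (R_mem _)) hg.1, ?_⟩
    show ((R c)⁻¹ * g) x = x
    rw [Perm.mul_apply, ← hxc, R_inv_apply, mul_rd]
  have hcomm := hQ.comm_at u1 u2
  have hgh := hQ g hg h hh
  set φ := h⁻¹ * (R c)⁻¹ * h * R c with hφ
  set χ := g⁻¹ * (R e)⁻¹ * g * R e with hχ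
  set θ := (R c)⁻¹ * (R e)⁻¹ * R c * R e with hθ
  have kφ : K1 φ := K1_commR hc hh.1
  have kχ : K1 χ := K2_comm hQ hκ de.R_mem
  have kθ : K1 θ := by
    have := K1_inv (K1_commR hc (R_mem e))
    have e3 : ((R e)⁻¹ * (R c)⁻¹ * R e * R c)⁻¹ = θ := by rw [hθ]; group
    rwa [e3] at this
  have nR := dc.R_mem
  have nRe := de.R_mem
  have ng := St_le_NN _ hg
  have nh := St_le_NN _ hh
  have g1 : g 1 = 1 := hg.2
  -- values at 1
  have vφ : φ 1 = (zt h c).val := by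
    simp only [hφ, Perm.mul_apply, R_apply, lone_mul]
    rw [zt_spec hh hc]
    have : (R c)⁻¹ (c * (zt h c).val) = (zt h c).val := by
      rw [R_inv_apply]; symm; rw [eq_rd_iff, (zt h c).comm]
    rw [this]
    exact (zt h c).fix (inv_mem hh)
  have vχ : χ 1 = (zt g e).val := by
    simp only [hχ, Perm.mul_apply, R_apply, lone_mul]
    rw [K2_der hQ hκ g1 de]
    have : (R e)⁻¹ (e * (zt g e).val) = (zt g e).val := by
      rw [R_inv_apply]; symm; rw [eq_rd_iff, (zt g e).comm]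
    rw [this]
    exact (zt g e).fix (inv_mem hg)
  have vθ : θ 1 = 1 := by
    simp only [hθ, Perm.mul_apply, R_apply, lone_mul]
    rw [← hc.comm_der hQ de]
    simp only [R_inv_apply, mul_rd, rd_self]
  have c1 := kφ.commN hQ nR
  have c2 := kφ.commN hQ nRe
  have c3 := kφ.commN hQ ng
  have c4 := kφ.commN hQ nh
  have d1 := kχ.commN hQ nR
  have d2 := kχ.commN hQ nRe
  have d3 := kχ.commN hQ ng
  have d4 := kχ.commN hQ nh
  have t1 := kθ.commN hQ nR
  have t2 := kθ.commN hQ nRe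
  have t3 := kθ.commN hQ ng
  have t4 := kθ.commN hQ nh
  have key : θ * φ = χ := by
    have e1 : h * R c = R c * h * φ := by rw [hφ]; group
    have e2 : g * R e = R e * g * χ := by rw [hχ]; group
    have e3 : R c * R e = R e * R c * θ := by rw [hθ]; group
    have f1 : h * (R c)⁻¹ = (R c)⁻¹ * h * φ⁻¹ := by
      have : h = R c * h * φ * (R c)⁻¹ := by rw [← e1]; group
      have h2 : φ * (R c)⁻¹ = (R c)⁻¹ * φ := (show Commute φ (R c) from c1).inv_right
      rw [mul_assoc _ φ, h2] at this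
      calc h * (R c)⁻¹ = (R c)⁻¹ * (R c * h * ((R c)⁻¹ * φ)) * φ⁻¹ := by group
        _ = _ := by rw [← this]
    have f2 : g * (R e)⁻¹ = (R e)⁻¹ * g * χ⁻¹ := by
      have : g = R e * g * χ * (R e)⁻¹ := by rw [← e2]; group
      have h2 : χ * (R e)⁻¹ = (R e)⁻¹ * χ := (show Commute χ (R e) from d2).inv_right
      rw [mul_assoc _ χ, h2] at this
      calc g * (R e)⁻¹ = (R e)⁻¹ * (R e * g * ((R e)⁻¹ * χ)) * χ⁻¹ := by group
        _ = _ := by rw [← this]
    have f3 : (R e)⁻¹ * (R c)⁻¹ = θ⁻¹ * ((R c)⁻¹ * (R e)⁻¹) := by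
      have : (R c * R e)⁻¹ = (R e * R c * θ)⁻¹ := by rw [e3]
      simpa [mul_inv_rev, mul_assoc] using this
    have g1 : (R e)⁻¹ * h * ((R c)⁻¹ * g) = θ⁻¹ * φ⁻¹ * ((R c)⁻¹ * (R e)⁻¹ * (g * h)) := by
      calc (R e)⁻¹ * h * ((R c)⁻¹ * g) = (R e)⁻¹ * (h * (R c)⁻¹) * g := by group
        _ = ((R e)⁻¹ * (R c)⁻¹) * (h * φ⁻¹ * g) := by rw [f1]; group
        _ = θ⁻¹ * ((R c)⁻¹ * (R e)⁻¹) * (φ⁻¹ * (h * g)) := by
            have : h * φ⁻¹ = φ⁻¹ * h := ((show Commute φ h from c4).inv_left).symm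
            rw [f3, this]; group
        _ = θ⁻¹ * φ⁻¹ * ((R c)⁻¹ * (R e)⁻¹ * (g * h)) := by
            have h1 : (R c)⁻¹ * (R e)⁻¹ * φ⁻¹ = φ⁻¹ * ((R c)⁻¹ * (R e)⁻¹) := by
              have i1 : Commute φ⁻¹ (R c)⁻¹ := ((show Commute φ (R c) from c1).inv_left).inv_right
              have i2 : Commute φ⁻¹ (R e)⁻¹ := ((show Commute φ (R e) from c2).inv_left).inv_right
              exact (i1.mul_right i2).symm
            rw [hgh]
            calc θ⁻¹ * ((R c)⁻¹ * (R e)⁻¹) * (φ⁻¹ * (h * g))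
                = θ⁻¹ * ((R c)⁻¹ * (R e)⁻¹ * φ⁻¹) * (h * g) := by group
              _ = _ := by rw [h1]; group
    have g2 : (R c)⁻¹ * g * ((R e)⁻¹ * h) = χ⁻¹ * ((R c)⁻¹ * (R e)⁻¹ * (g * h)) := by
      calc (R c)⁻¹ * g * ((R e)⁻¹ * h) = (R c)⁻¹ * (g * (R e)⁻¹) * h := by group
        _ = ((R c)⁻¹ * (R e)⁻¹ * g) * χ⁻¹ * h := by rw [f2]; group
        _ = χ⁻¹ * ((R c)⁻¹ * (R e)⁻¹ * (g * h)) := by
            have i1 : Commute χ⁻¹ (R c)⁻¹ := ((show Commute χ (R c) from d1).inv_left).inv_right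
            have i2 : Commute χ⁻¹ (R e)⁻¹ := ((show Commute χ (R e) from d2).inv_left).inv_right
            have i3 : Commute χ⁻¹ g := (show Commute χ g from d3).inv_left
            have i := ((i1.mul_right i2).mul_right i3).symm
            rw [show (R c)⁻¹ * (R e)⁻¹ * g * χ⁻¹ = χ⁻¹ * ((R c)⁻¹ * (R e)⁻¹ * g) from i]
            group
    rw [g1, g2] at hcomm
    have h5 : θ⁻¹ * φ⁻¹ = χ⁻¹ := mul_right_cancel hcomm
    have h6 : φ * θ = χ := by
      have := congrArg (·⁻¹) h5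
      simpa [mul_inv_rev] using this
    have h7 : φ * θ = θ * φ := by
      have nθ : θ ∈ NN Q := by
        rw [hθ]
        exact mul_mem (mul_mem (mul_mem (inv_mem nR) (inv_mem nRe)) nR) nRe
      exact kφ.commN hQ nθ
    rw [← h7]; exact h6
  have v := congrArg (fun p : Perm Q => p 1) key
  simp only [Perm.mul_apply] at v
  rw [vφ, vχ] at v
  have hz : θ (zt h c).val = (zt h c).val := by
    have h1 : (1 : Q) * (zt h c).val = (zt h c).val := lone_mul _
    rw [← h1, (zt h c).act kθ.1, vθ]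
  rw [hz] at v
  exact Zn.ext v

/-- the shape of `mm K P * K⁻¹` when `P` is in the second center -/
theorem rho_formula (hQ : AIM Q) {K : Perm Q} (hK : K ∈ St (1 : Q)) {P : Q} (hP : IsZ2 P) (X : Q) :
    (mm K P * K⁻¹) X = X * (zt (mm K X) P - zt K P).val := by
  -- t
  have kT := K1_T hP
  set Y := K⁻¹ X with hY
  have hKY : K Y = X := pai K X
  obtain ⟨t, ht⟩ := cen_mul_z (kT.2 Y)
  have htX : T P X = X * t.val := by
    have h1 : T P * K = K * T P := hQ _ (T_mem P) _ hK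
    have h2 : T P (K Y) = K (T P Y) := by rw [← Perm.mul_apply, h1]; rfl
    rw [hKY, ht, t.act hK.1, hKY] at h2
    exact h2
  have hPY : P * Y = (Y * P) * t.val := by
    have : T P Y * P = P * Y := by rw [T_apply, rd_mul]
    rw [← this, ht, t.Rz]
  have hPX : P * X = (X * P) * t.val := by
    have : T P X * P = P * X := by rw [T_apply, rd_mul]
    rw [← this, htX, t.Rz]
  -- zt (mm K Y) P = zt (mm K X) P
  have hzz : ∀ W, K (W * P) = ((K W) * P) * (zt (mm K W) P).val := by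
    intro W
    rw [mm_spec, zt_spec (mm_mem hK.1 W) hP, (zt (mm K W) P).Lz]
  have kφ : K1 (K⁻¹ * (R P)⁻¹ * K * R P) := K1_commR hP hK.1
  have vφ : ∀ W, (K⁻¹ * (R P)⁻¹ * K * R P) W = W * (zt (mm K W) P).val := by
    intro W
    simp only [Perm.mul_apply, R_apply]
    rw [hzz]
    have : (R P)⁻¹ (K W * P * (zt (mm K W) P).val) = K W * (zt (mm K W) P).val := by
      rw [R_inv_apply]; symm; rw [eq_rd_iff, (zt (mm K W) P).Rz]
    rw [this, (zt (mm K W) P).act ((Mlt Q).inv_mem hK.1), pia]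
  have hzXY : zt (mm K X) P = zt (mm K Y) P := by
    have h1 := kφ.commN hQ (St_le_NN _ hK)
    have h2 : (K⁻¹ * (R P)⁻¹ * K * R P) (K Y) = K ((K⁻¹ * (R P)⁻¹ * K * R P) Y) := by
      rw [← Perm.mul_apply, h1]; rfl
    rw [vφ Y, hKY, vφ X, (zt (mm K Y) P).act hK.1, hKY] at h2
    exact mul_z_inj h2
  -- conclusion
  rw [hzXY]
  set ζ1 := zt (mm K Y) P with hζ1
  set ζ0 := zt K P with hζ0
  have e1 : (mm K P * K⁻¹) X = ld (K P) (K (P * Y)) := rfl
  rw [e1]
  symm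
  rw [eq_ld_iff, hPY, t.act hK.1, hzz, hKY, ← hζ1, zt_spec hK hP, ← hζ0, ζ0.Rz,
    (ζ1 - ζ0).Lz, hPX]
  rw [← mul_add_z, ← mul_add_z, ← mul_add_z]
  congr 2
  abel

end symm2

/-! ### class at most three: derived elements are in the second center -/

section al
variable {Q : Type u} [Loop Q]

theorem NN_K2_of_Al (hA : Al Q) {n : Perm Q} (hn : n ∈ NN Q) : K2 n := by
  refine ⟨NN_le hn, ?_⟩
  refine Subgroup.closure_induction
    (p := fun n _ => ∀ x, (cen (QZ Q)) (pz x) (pz (n x))) ?_ ?_ ?_ ?_ hn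
  · rintro g ⟨x, hx⟩ w
    have e : (L x)⁻¹ x = 1 := ld_self x
    have h1 := conj_St (inv_mem (L_mem x)) hx
    rw [e] at h1
    have h2 := pz_of_Al (hA _ h1 (ld x w))
    set a := (hA _ h1 (ld x w)).toZ with ha
    have h3 : g w = x * ((L x)⁻¹ * g * (L x)⁻¹⁻¹) (ld x w) := by
      simp only [Perm.mul_apply, inv_inv, L_apply, mul_ld, L_inv_apply]
    rw [cen_iff']
    refine ⟨a, ?_⟩
    rw [h3, pz_mul, h2, a.Lz, ← pz_mul, mul_ld]
  · intro x; exact (cen (QZ Q)).refl _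
  · intro a b _ _ ha hb x
    exact (cen (QZ Q)).trans (hb x) (ha (b x))
  · intro a _ ha x
    have := ha (a⁻¹ x)
    rw [pai] at this
    exact (cen (QZ Q)).symm this

theorem Der_Z2_of_Al (hA : Al Q) {c : Q} (hc : Der c) : IsZ2 c := by
  obtain ⟨n, hn, rfl⟩ := hc
  obtain ⟨z, hz⟩ := cen_mul_z ((NN_K2_of_Al hA hn).2 1)
  rw [pz_one, lone_mul] at hz
  exact isZ2_of_z z hz

end al

end H56
end LpAim
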