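import Pool.Agent.NH56.AimE

/-!
# The action of inner mappings on derived elements when the central quotient has class at
most three
-/

namespace LpAim
namespace H56

open Equiv

universe u v

section ind
variable {Q : Type u} [Loop Q]

/-- `G` is the permutation of the central quotient induced by `g` -/
def Ind (g : Perm Q) (G : Perm (QZ Q)) : Prop := ∀ x, pz (g x) = G (pz x)

theorem Ind.mul {g h : Perm Q} {G H : Perm (QZ Q)} (h1 : Ind g G) (h2 : Ind h H) :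
    Ind (g * h) (G * H) := fun x => by rw [Perm.mul_apply, h1, h2]; rfl

theorem Ind.inv {g : Perm Q} {G : Perm (QZ Q)} (h1 : Ind g G) : Ind g⁻¹ G⁻¹ := fun x => by
  rw [Perm.eq_inv_iff_eq, ← h1, pai]

theorem Ind_L (x : Q) : Ind (L x) (L (pz x)) := fun _ => rfl
theorem Ind_R (x : Q) : Ind (R x) (R (pz x)) := fun _ => rfl
theorem Ind_T (x : Q) : Ind (T x) (T (pz x)) := fun y => map_T (f := (pz : Q → QZ Q)) pz_mul x y
theorem Ind_l (x y : Q) : Ind (l x y) (l (pz x) (pz y)) :=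
  fun z => map_l (f := (pz : Q → QZ Q)) pz_mul x y z
theorem Ind_r (x y : Q) : Ind (r x y) (r (pz x) (pz y)) :=
  fun z => map_r (f := (pz : Q → QZ Q)) pz_mul x y z
theorem Ind_A (x y : Q) : Ind (A x y) (A (pz x) (pz y)) :=
  fun z => map_A (f := (pz : Q → QZ Q)) pz_mul x y z

theorem Ind.mm {g : Perm Q} {G : Perm (QZ Q)} (h1 : Ind g G) (w : Q) :
    Ind (mm g w) (mm G (pz w)) := by
  have h2 := ((Ind_L (g w)).inv.mul h1).mul (Ind_L w)
  rw [h1 w] at h2
  exact h2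

theorem exists_Ind {g : Perm Q} (hg : g ∈ St (1 : Q)) : ∃ G ∈ St (1 : QZ Q), Ind g G :=
  inner_induced (f := (pz : Q → QZ Q)) pz_mul hg

theorem K2_of_K1 {φ : Perm Q} {Φ : Perm (QZ Q)} (h : φ ∈ Mlt Q) (hi : Ind φ Φ) (hK : K1 Φ) :
    K2 φ := ⟨h, fun x => by rw [hi]; exact hK.2 _⟩

/-- the deviation of `mm k a` from `k` -/
def rho (k : Perm Q) (a : Q) : Perm Q := mm k a * k⁻¹

theorem rho_mem {k : Perm Q} (hk : k ∈ St (1 : Q)) (a : Q) : rho k a ∈ St (1 : Q) :=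
  mul_mem (mm_mem hk.1 a) (inv_mem hk)

theorem rho_mul (k : Perm Q) (a : Q) : rho k a * k = mm k a := by
  unfold rho; group

theorem Ind.rho {g : Perm Q} {G : Perm (QZ Q)} (h1 : Ind g G) (w : Q) :
    Ind (rho g w) (rho G (pz w)) := (h1.mm w).mul h1.inv

end ind

section E2
variable {Q : Type u} [Loop Q] {hQ : AIM Q}

/-- the projection of `E2` to the center of the quotient -/
def pe (a : E2 hQ) : Zn (QZ Q) := a.z2.toZ

theorem pe_val (a : E2 hQ) : (pe a).val = pz a.val := rfl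
theorem pe_add (a b : E2 hQ) : pe (a + b) = pe a + pe b := Zn.ext rfl
theorem pe_zero : pe (0 : E2 hQ) = 0 := Zn.ext rfl
theorem pe_neg (a : E2 hQ) : pe (-a) = - pe a := by
  rw [eq_neg_iff_add_eq_zero, ← pe_add, neg_add_cancel, pe_zero]
theorem pe_sub (a b : E2 hQ) : pe (a - b) = pe a - pe b := by
  rw [sub_eq_add_neg, pe_add, pe_neg, sub_eq_add_neg]

theorem zt_pe {h : Perm Q} (hh : h ∈ St (1 : Q)) {a b : E2 hQ} (e : pe a = pe b) :
    zt h a.val = zt h b.val := by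
  refine (zt_congr hh a.z2 ((pz_eq _ _).1 ?_)).symm
  exact congrArg Zn.val e

theorem zt_sub_e {h : Perm Q} (hh : h ∈ St (1 : Q)) (a b : E2 hQ) :
    zt h (a - b).val = zt h a.val - zt h b.val := by
  rw [sub_eq_add_neg, zt_add_e hh, zt_neg_e hh, sub_eq_add_neg]

/-- constructor -/
def E2.mk' (hQ : AIM Q) (P : Q) (h : IsZ2 P ∧ DZ P) : E2 hQ := ⟨P, h⟩

theorem E2.mk'_val (P : Q) (h : IsZ2 P ∧ DZ P) : (E2.mk' hQ P h).val = P := rfl

open Classical in
/-- the action of `k` on `c`, as an element of `E2` -/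
noncomputable def dE (hQ : AIM Q) (k : Perm Q) (c : Q) : E2 hQ :=
  if h : IsZ2 (ld c (k c)) ∧ DZ (ld c (k c)) then E2.mk' hQ (ld c (k c)) h else 0

theorem dE_eq {k : Perm Q} {c : Q} {e : E2 hQ} (h : k c = c * e.val) : dE hQ k c = e := by
  have h1 : ld c (k c) = e.val := by rw [h, ld_mul]
  have h2 : IsZ2 (ld c (k c)) ∧ DZ (ld c (k c)) := by rw [h1]; exact e.2
  unfold dE
  rw [dif_pos h2]
  exact E2.ext' h1

end E2

section four
variable {Q : Type u} [Loop Q] (hQ : AIM Q) (hA : Al (QZ Q))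

include hA in
theorem D3 {c : Q} (hc : Der c) : IsZ2 (pz c) := Der_Z2_of_Al hA (Der_pz hc)

include hA in
theorem K2_l_right {c : Q} (hc : Der c) (z : Q) : K2 (l z c) :=
  K2_of_K1 (l_mem_Mlt z c) (Ind_l z c) (K1_l_right (D3 hA hc) _)

include hA in
theorem K2_l_left {c : Q} (hc : Der c) (z : Q) : K2 (l c z) :=
  K2_of_K1 (l_mem_Mlt c z) (Ind_l c z) (K1_l_left (D3 hA hc) _)

include hA in
theorem K2_A_right {c : Q} (hc : Der c) (z : Q) : K2 (A z c) :=
  K2_of_K1 (A_mem_Mlt z c) (Ind_A z c) (K1_A_right (D3 hA hc) _)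

include hA in
theorem K2_T {c : Q} (hc : Der c) : K2 (T c) :=
  K2_of_K1 (T_mem_Mlt c) (Ind_T c) (K1_T (D3 hA hc))

include hQ hA in
theorem rho_pz {k : Perm Q} {K : Perm (QZ Q)} (hK : K ∈ St (1 : QZ Q)) (hi : Ind k K)
    {a : Q} (ha : Der a) (x : Q) :
    pz (rho k a x) = pz x * (zt (mm K (pz x)) (pz a) - zt K (pz a)).val := by
  rw [hi.rho a x]
  exact rho_formula (hQ.quot _ _) hK (D3 hA ha) (pz x)

include hQ hA in
theorem K2_rho {k : Perm Q} (hk : k ∈ St (1 : Q)) {a : Q} (ha : Der a) : K2 (rho k a) := by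
  obtain ⟨K, hK, hi⟩ := exists_Ind hk
  exact K2_of (rho_mem hk a).1 (fun x => ⟨_, rho_pz hQ hA hK hi ha x⟩)

include hA in
theorem dE_mem {k : Perm Q} (hk : k ∈ St (1 : Q)) {c : Q} (hc : Der c) :
    IsZ2 (ld c (k c)) ∧ DZ (ld c (k c)) := by
  refine ⟨?_, DZ_of (der_ldS hk c)⟩
  obtain ⟨K, hK, e⟩ := exists_Ind hk
  refine isZ2_of_pz (a := zt K (pz c)) ?_
  rw [e]
  exact zt_spec hK (D3 hA hc)

include hA in
theorem dE_val {k : Perm Q} (hk : k ∈ St (1 : Q)) {c : Q} (hc : Der c) :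
    (dE hQ k c).val = ld c (k c) := by
  unfold dE
  rw [dif_pos (dE_mem hA hk hc)]
  rfl

include hA in
theorem dE_spec {k : Perm Q} (hk : k ∈ St (1 : Q)) {c : Q} (hc : Der c) :
    k c = c * (dE hQ k c).val := by
  rw [dE_val hQ hA hk hc, mul_ld]

include hA in
theorem dE_der {k : Perm Q} (hk : k ∈ St (1 : Q)) {c : Q} (hc : Der c) :
    Der (dE hQ k c).val := by
  rw [dE_val hQ hA hk hc]
  exact der_ldS hk c

include hA in
theorem pe_dE {k : Perm Q} {K : Perm (QZ Q)} (hk : k ∈ St (1 : Q)) (hK : K ∈ St (1 : QZ Q))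
    (hi : Ind k K) {c : Q} (hc : Der c) : pe (dE hQ k c) = zt K (pz c) := by
  apply Zn.ext
  rw [pe_val, dE_val hQ hA hk hc, pz_ld, hi c]
  symm
  rw [eq_ld_iff]
  exact (zt_spec hK (D3 hA hc)).symm

theorem dE_one {k : Perm Q} (hk : k ∈ St (1 : Q)) : dE hQ k 1 = 0 := by
  apply dE_eq
  rw [mul_zero_e]
  exact hk.2

/-- permutations of type `K2` kill the values of `dE` -/
theorem zt_K2_dE {ρ : Perm Q} (hρ : K2 ρ) (hρ1 : ρ ∈ St (1 : Q)) {k : Perm Q}
    (hk : k ∈ St (1 : Q)) {b : Q} (hb : Der b) (hA : Al (QZ Q)) :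
    zt ρ (dE hQ k b).val = 0 := by
  have h1 : ρ 1 = 1 := hρ1.2
  set P := dE hQ k b with hP
  have dP : Der P.val := dE_der hQ hA hk hb
  have e1 : k b = b * P.val := dE_spec hQ hA hk hb
  have e2 : ρ (b * P.val) = (b * P.val) * (zt ρ b + zt ρ P.val).val := by
    rw [← K2_zt_mul hQ hρ h1 hb dP]
    exact K2_der hQ hρ h1 (hb.mul dP)
  have e3 : ρ (k b) = k (ρ b) := by
    rw [← Perm.mul_apply, hQ ρ hρ1 k hk]; rfl
  rw [e1, e2, K2_der hQ hρ h1 hb, (zt ρ b).act hk.1, e1] at e3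
  have e4 := mul_z_inj e3
  exact left_eq_add.1 e4.symm

/-- the basic product rule -/
theorem act_mul {k : Perm Q} (hk : k ∈ St (1 : Q)) {c : Q} (hc : Der c) (P : E2 hQ)
    (hP : zt (rho k c) P.val = 0) (hA : Al (QZ Q)) :
    k (c * P.val) = c * (dE hQ k c + P + io (zt k P.val)).val := by
  have e1 : zt (mm k c) P.val = zt k P.val := by
    rw [← rho_mul, zt_mul_left (rho_mem hk c) hk P.z2, hP, zero_add]
  rw [mm_spec, zt_spec (mm_mem hk.1 c) P.z2, e1, dE_spec hQ hA hk hc, ← io_val (hQ := hQ),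
    add_assoc, mul_add_e, E2.val_add]

include hA in
theorem act_dE {k k' : Perm Q} (hk : k ∈ St (1 : Q)) (hk' : k' ∈ St (1 : Q)) {c d : Q}
    (hc : Der c) (hd : Der d) :
    k (c * (dE hQ k' d).val) = c * (dE hQ k c + dE hQ k' d + io (zt k (dE hQ k' d).val)).val :=
  act_mul hQ hk hc _ (zt_K2_dE hQ (K2_rho hQ hA hk hc) (rho_mem hk c) hk' hd hA) hA

include hA in
theorem dE_mul_left {k k' : Perm Q} (hk : k ∈ St (1 : Q)) (hk' : k' ∈ St (1 : Q)) {c : Q}
    (hc : Der c) :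
    dE hQ (k * k') c = dE hQ k c + dE hQ k' c + io (zt k (dE hQ k' c).val) := by
  apply dE_eq
  rw [Perm.mul_apply, dE_spec hQ hA hk' hc]
  exact act_dE hQ hA hk hk' hc hc

theorem dE_id (c : Q) : dE hQ 1 c = 0 := by
  apply dE_eq
  rw [mul_zero_e]; rfl

include hA in
theorem dE_inv_left {k : Perm Q} (hk : k ∈ St (1 : Q)) {c : Q} (hc : Der c) :
    dE hQ k⁻¹ c = - dE hQ k c + io (zt k (dE hQ k c).val) := by
  have h1 := dE_mul_left hQ hA (inv_mem hk) hk hc
  rw [inv_mul_cancel, dE_id, zt_inv_left hk (dE hQ k c).z2, io_neg] at h1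
  linear_combination (norm := abel) -h1

include hA in
/-- the action on a translate by an inner mapping -/
theorem dE_apply {k σ : Perm Q} (hk : k ∈ St (1 : Q)) (hσ : σ ∈ St (1 : Q)) {c : Q}
    (hc : Der c) :
    dE hQ k (σ c) = dE hQ k c + io (zt k (dE hQ σ c).val) := by
  apply dE_eq
  have e1 := dE_spec hQ hA hσ hc
  rw [e1, act_dE hQ hA hk hσ hc hc, ← mul_add_e]
  congr 2
  abel

theorem dE_K2 {κ : Perm Q} (hκ : K2 κ) (h1 : κ 1 = 1) {c : Q} (hc : Der c) :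
    dE hQ κ c = io (zt κ c) := by
  apply dE_eq
  rw [io_val]
  exact K2_der hQ hκ h1 hc

include hA in
theorem dE_mulz {k : Perm Q} (hk : k ∈ St (1 : Q)) {c : Q} (hc : Der c) (z : Zn Q) :
    dE hQ k (c * z.val) = dE hQ k c := by
  apply dE_eq
  rw [z.act hk.1, dE_spec hQ hA hk hc, z.Rz]

include hA in
theorem dE_mm {k : Perm Q} (hk : k ∈ St (1 : Q)) {a b : Q} (ha : Der a) (hb : Der b) :
    dE hQ (mm k a) b = dE hQ k b + io (zt (rho k a) b) := by
  have hρ := K2_rho hQ hA hk ha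
  have hm := rho_mem hk a
  rw [← rho_mul, dE_mul_left hQ hA hm hk hb, dE_K2 hQ hρ hm.2 hb,
    zt_K2_dE hQ hρ hm hk hb hA, io_zero]
  abel

include hA in
/-- the product rule for derived elements -/
theorem dE_prod {k : Perm Q} (hk : k ∈ St (1 : Q)) {a b : Q} (ha : Der a) (hb : Der b) :
    dE hQ k (a * b) = dE hQ k a + dE hQ k b + io (zt (rho k a) b) := by
  apply dE_eq
  rw [mm_spec, dE_spec hQ hA hk ha, dE_spec hQ hA (mm_mem hk.1 a) hb,
    mul_swap_e (DZ_of ha) (DZ_of hb), dE_mm hQ hA hk ha hb, add_assoc]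

include hQ hA in
/-- commutators of derived elements are central -/
theorem comm_der {a b : Q} (ha : Der a) (hb : Der b) :
    a * b = (b * a) * (zt (T a) b).val := by
  have h1 := K2_der hQ (K2_T hA ha) (T_mem a).2 hb
  rw [T_apply] at h1
  have h2 := (eq_rd_iff _ _ _).1 h1.symm
  rw [← h2, (zt (T a) b).Rz]

include hQ hA in
theorem beta_symm {k : Perm Q} (hk : k ∈ St (1 : Q)) {a b : Q} (ha : Der a) (hb : Der b) :
    zt (rho k a) b = zt (rho k b) a := by
  have h1 := dE_prod hQ hA hk ha hb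
  have h2 := dE_prod hQ hA hk hb ha
  rw [comm_der hQ hA ha hb, dE_mulz hQ hA hk (hb.mul ha)] at h1
  apply io_inj (hQ := hQ)
  linear_combination (norm := abel) h2 - h1

include hA in
/-- evaluation of `β` at a value -/
theorem beta_eval {k h : Perm Q} (hk : k ∈ St (1 : Q)) (hh : h ∈ St (1 : Q)) {a : Q}
    (ha : Der a) (x : Q) :
    zt (rho k a) (ld x (h x)) = zt h (dE hQ (mm k x) a).val - zt h (dE hQ k a).val := by
  have hm := rho_mem hk a
  have hρ := K2_rho hQ hA hk ha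
  rw [← zt_symm2 hQ hh hm hρ x, ← zt_sub_e hh]
  have hz : IsZ2 (ld x (rho k a x)) := hρ.z2 x
  refine (zt_congr hh hz ((pz_eq _ _).1 ?_)).symm
  obtain ⟨K, hK, hi⟩ := exists_Ind hk
  rw [pz_ld, rho_pz hQ hA hK hi ha x, ld_mul, ← pe_val, pe_sub,
    pe_dE hQ hA (mm_mem hk.1 x) (mm_mem hK.1 _) (hi.mm x) ha, pe_dE hQ hA hk hK hi ha]

include hQ hA in
/-- vanishing of `β` on values with the same base -/
theorem beta_same {k g h : Perm Q} (hk : k ∈ St (1 : Q)) (hg : g ∈ St (1 : Q))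
    (hh : h ∈ St (1 : Q)) (x : Q) :
    zt (rho k (ld x (g x))) (ld x (h x)) = 0 := by
  have ha : Der (ld x (g x)) := der_ldS hg x
  rw [beta_eval hQ hA hk hh ha x]
  obtain ⟨K, hK, hi⟩ := exists_Ind hk
  obtain ⟨G, hG, hj⟩ := exists_Ind hg
  rw [sub_eq_zero]
  apply zt_pe hh
  rw [pe_dE hQ hA (mm_mem hk.1 x) (mm_mem hK.1 _) (hi.mm x) ha, pe_dE hQ hA hk hK hi ha,
    pz_ld, hj x]
  have hQ' : AIM (QZ Q) := hQ.quot _ _
  show Ph (mm K (pz x)) G (pz x) = Ph K G (pz x)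
  rw [Ph_symm hQ' hA (mm_mem hK.1 _) hG, Ph_mm hQ' hA hG hK, Ph_sq hQ' hA hG hK,
    Ph_symm hQ' hA hK hG]
  abel

/-- associativity for derived elements -/
theorem der_assoc {z c e : Q} (hz : Der z) (hc : Der c) (he : Der e) (hQ : AIM Q)
    (hA : Al (QZ Q)) : (z * c) * e = z * (c * e) := by
  have hK : K1 (r c e) := by
    refine ⟨r_mem_Mlt c e, fun x => ?_⟩
    rw [← pz_eq, Ind_r c e x, r_apply, eq_rd_iff]
    exact assocP (hQ.quot _ _) (DZ_of (Der_pz hc)) (D3 hA he)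
  have h1 := hK.fix_der hQ (r_mem c e).2 hz
  rw [r_apply] at h1
  exact ((eq_rd_iff _ _ _).1 h1.symm).symm

include hQ hA in
/-- values with the same base commute -/
theorem comm_same {g h : Perm Q} (hg : g ∈ St (1 : Q)) (hh : h ∈ St (1 : Q)) (x : Q) :
    ld x (g x) * ld x (h x) = ld x (h x) * ld x (g x) := by
  have hc : Der (ld x (g x)) := der_ldS hg x
  have he : Der (ld x (h x)) := der_ldS hh x
  set c := ld x (g x) with hcd
  rw [comm_der hQ hA hc he]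
  have h2 : zt (T c) (ld x (h x)) = 0 := by
    rw [← zt_symm2 hQ hh (T_mem c) (K2_T hA hc) x]
    apply zt_central hh
    rw [← pz_eq, pz_one, pz_ld, Ind_T c x]
    obtain ⟨G, hG, hj⟩ := exists_Ind hg
    have hQ' : AIM (QZ Q) := hQ.quot _ _
    have e1 : pz c = ld (pz x) (G (pz x)) := by rw [hcd, pz_ld, hj]
    have hz := D3 hA hc
    have e2 : T (pz x) (pz c) = pz c * (zt (T (pz x)) (pz c)).val := zt_spec (T_mem _) hz
    have e3 := comm_T e2
    have e4 : zt (T (pz x)) (pz c) = 0 := by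
      rw [e1]
      show Ph (T (pz x)) G (pz x) = 0
      rw [Ph_symm hQ' hA (T_mem _) hG, Ph_T_self hG]
    rw [e3, e4, neg_zero, mul_zero_z, ld_self]
  rw [h2, mul_zero_z]

end four

end H56
end LpAim
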