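import Pool.Agent.NH56.AimF

/-!
# The lifted pairing: symmetry and exact rules
-/

namespace LpAim
namespace H56

open Equiv

universe u v

section kap
variable {Q : Type u} [Loop Q]

theorem l_spec (a b m : Q) : a * (b * m) = (a * b) * l a b m := by rw [l_apply, mul_ld]

/-- the inner mapping with `(z * m) * w = (z * w) * kap z w m` -/
def kap (z w : Q) : Perm Q := l z w * (T w)⁻¹ * (A z w)⁻¹

theorem kap_mem (z w : Q) : kap z w ∈ St (1 : Q) :=
  mul_mem (mul_mem (l_mem z w) (inv_mem (T_mem w))) (inv_mem (A_mem z w))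

theorem kap_eq (z w : Q) : kap z w = (L (z * w))⁻¹ * R w * L z := by
  unfold kap l T A
  group

theorem kap_spec (z w m : Q) : (z * m) * w = (z * w) * kap z w m := by
  rw [kap_eq]
  simp only [Perm.mul_apply, L_apply, R_apply, L_inv_apply, mul_ld]

theorem Ind_kap (z w : Q) : Ind (kap z w) (kap (pz z) (pz w)) :=
  ((Ind_l z w).mul (Ind_T w).inv).mul (Ind_A z w).inv

end kap

section kap3
variable {Q : Type u} [Loop Q] (hQ : AIM Q) (hA : Al Q)

include hQ hA

omit hQ in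
theorem Ph_kap_left {G : Perm Q} (hG : G ∈ St (1 : Q)) (z w u : Q) :
    Ph (kap z w) G u = Ph (l z w) G u - Ph (T w) G u - Ph (A z w) G u := by
  have hz := hA G hG u
  unfold kap
  rw [Ph_mul_left (mul_mem (l_mem z w) (inv_mem (T_mem w))) (inv_mem (A_mem z w)) hz,
    Ph_mul_left (l_mem z w) (inv_mem (T_mem w)) hz, Ph_inv_left (T_mem w) hz,
    Ph_inv_left (A_mem z w) hz]
  abel

theorem Ph_kap_self {G : Perm Q} (hG : G ∈ St (1 : Q)) (z w : Q) :
    Ph (kap z w) G z = - Ph (T w) G z := by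
  rw [Ph_kap_left hA hG, Ph_symm hQ hA (l_mem z w) hG, G_self13 hQ hA hG,
    Ph_symm hQ hA (A_mem z w) hG, Ph_A hA hG, G_self12 hQ hA hG]
  abel

end kap3

section four
variable {Q : Type u} [Loop Q] (hQ : AIM Q) (hA : Al (QZ Q))

theorem pe_io (z : Zn Q) : pe (io z : E2 hQ) = 0 := by
  apply Zn.ext
  rw [pe_val, io_val, Zn.val_zero, ← pz_one, eq_comm, pz_eq]
  have := cen_mul (1 : Q) z
  rwa [lone_mul] at this

/-- the lifted pairing -/
noncomputable def BB (k g : Perm Q) (w : Q) : E2 hQ := dE hQ k (ld w (g w))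

include hA in
theorem BB_symm {h g : Perm Q} (hh : h ∈ St (1 : Q)) (hg : g ∈ St (1 : Q)) (x : Q) :
    BB hQ h g x = BB hQ g h x := by
  have hc : Der (ld x (g x)) := der_ldS hg x
  have he : Der (ld x (h x)) := der_ldS hh x
  have hxc : x * ld x (g x) = g x := mul_ld x _
  have hxe : x * ld x (h x) = h x := mul_ld x _
  have hcomm := comm_same hQ hA hg hh x
  have hb1 := beta_same hQ hA hg hg hh x
  have hb2 := beta_same hQ hA hg hh hh x
  unfold BB
  have hbe := fun (q : Q) (hq : Der q) => beta_eval hQ hA hg hh hq x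
  set c := ld x (g x) with hcdef
  set e := ld x (h x) with hedef
  have u1 : (R e)⁻¹ * h ∈ St x := by
    refine ⟨(Mlt Q).mul_mem ((Mlt Q).inv_mem (R_mem _)) hh.1, ?_⟩
    show ((R e)⁻¹ * h) x = x
    rw [Perm.mul_apply, ← hxe, R_inv_apply, mul_rd]
  have u2 : (R c)⁻¹ * g ∈ St x := by
    refine ⟨(Mlt Q).mul_mem ((Mlt Q).inv_mem (R_mem _)) hg.1, ?_⟩
    show ((R c)⁻¹ * g) x = x
    rw [Perm.mul_apply, ← hxc, R_inv_apply, mul_rd]
  have hcm := hQ.comm_at u1 u2
  have hgh := hQ g hg h hh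
  have v := congrArg (fun p : Perm Q => p (g⁻¹ c)) hcm
  simp only [Perm.mul_apply, R_inv_apply] at v
  have h1 : h 1 = 1 := hh.2
  rw [pai, rd_self, h1] at v
  have dgc : Der (g⁻¹ c) := Der_St hc (inv_mem hg)
  have dhgc : Der (h (g⁻¹ c)) := Der_St dgc hh
  set q := rd (h (g⁻¹ c)) e with hq
  have dq : Der q := Der_rd he dhgc
  have de' : Der (rd 1 e) := Der_rd he der_one
  have hgq : g q = rd 1 e * c := by
    have := (eq_rd_iff _ _ _).1 v
    exact this.symm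
  have hqe : q * e = h (g⁻¹ c) := rd_mul _ _
  have hhc : h c = g (q * e) := by
    rw [hqe]
    have : g (h (g⁻¹ c)) = h (g (g⁻¹ c)) := by
      rw [← Perm.mul_apply, hgh]; rfl
    rw [this, pai]
  have e1 : (rd 1 e * c) * e = c := by
    rw [der_assoc de' hc he hQ hA, hcomm, ← der_assoc de' he hc hQ hA, rd_mul, lone_mul]
  have e2 : h c = c * (dE hQ (mm g q) e).val := by
    rw [hhc, mm_spec, hgq, dE_spec hQ hA (mm_mem hg.1 q) he,
      assocP hQ (DZ_of he) (dE hQ (mm g q) e).z2, e1]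
  have e3 : dE hQ h c = dE hQ (mm g q) e := dE_eq e2
  rw [e3, dE_mm hQ hA hg dq he]
  -- the correction vanishes
  have key : ∀ k ∈ St (1 : Q), pe (dE hQ k q) = pe (dE hQ k c - dE hQ k e) := by
    intro k hk
    have f1 := dE_prod hQ hA hk dq he
    rw [hqe] at f1
    have f2 := dE_apply hQ hA hk (mul_mem hh (inv_mem hg)) hc
    have f3 : (h * g⁻¹) c = h (g⁻¹ c) := rfl
    rw [f3, f1] at f2
    have f4 := congrArg pe f2
    rw [pe_add, pe_add, pe_add, pe_io, pe_io, add_zero, add_zero] at f4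
    rw [pe_sub, ← f4]
    abel
  have z0 : zt (rho g q) e = 0 := by
    rw [hbe q dq, zt_pe hh (key _ (mm_mem hg.1 x)), zt_pe hh (key g hg), zt_sub_e hh,
      zt_sub_e hh]
    rw [hbe c hc] at hb1
    rw [hbe e he] at hb2
    linear_combination (norm := abel) hb1 - hb2
  rw [z0, io_zero, add_zero]

include hA in
/-- `P4` in terms of `dE` -/
theorem P4_def {g t : Perm Q} (hg : g ∈ St (1 : Q)) (ht : t ∈ St (1 : Q)) (k : Perm Q) (u : Q) :
    zt k (dE hQ g (ld u (t u))).val = P4 k g t u := by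
  rw [dE_val hQ hA hg (der_ldS ht u)]
  rfl

include hA in
theorem pe_dE_c {g t : Perm Q} {G S : Perm (QZ Q)} (hg : g ∈ St (1 : Q)) (ht : t ∈ St (1 : Q))
    (hG : G ∈ St (1 : QZ Q)) (i1 : Ind g G) (i2 : Ind t S) (u : Q) :
    pe (dE hQ g (ld u (t u))) = Ph G S (pz u) := by
  rw [pe_dE hQ hA hg hG i1 (der_ldS ht u), pz_ld, i2 u]
  rfl

include hA in
theorem P4_van {k g t : Perm Q} {G S : Perm (QZ Q)} (hk : k ∈ St (1 : Q))
    (hG : G ∈ St (1 : QZ Q)) (hS : S ∈ St (1 : QZ Q)) (i1 : Ind g G) (i2 : Ind t S) {u : Q}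
    (e : Ph G S (pz u) = 0) : P4 k g t u = 0 := by
  have h1 := lev (g' := g) hA hG hS i1 i2 u
  have h2 := pz_ld_eq h1
  unfold P4 Ph
  apply zt_central hk
  rw [← pz_eq, h2, e]
  rfl

include hA in
theorem P4_congr {k g t g' t' : Perm Q} {G S G' S' : Perm (QZ Q)} (hk : k ∈ St (1 : Q))
    (hG : G ∈ St (1 : QZ Q)) (hS : S ∈ St (1 : QZ Q)) (i1 : Ind g G) (i2 : Ind t S)
    (hG' : G' ∈ St (1 : QZ Q)) (hS' : S' ∈ St (1 : QZ Q)) (i1' : Ind g' G') (i2' : Ind t' S')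
    {u u' : Q} (e : Ph G S (pz u) = Ph G' S' (pz u')) : P4 k g t u = P4 k g' t' u' := by
  have h1 := lev (g' := g) hA hG hS i1 i2 u
  have h2 := lev (g' := g') hA hG' hS' i1' i2' u'
  rw [e] at h1
  exact Ph_eq_of_pz hk h1 h2

include hQ hA in
theorem P4_neg {k g t g' t' : Perm Q} {G S G' S' : Perm (QZ Q)} (hk : k ∈ St (1 : Q))
    (hg' : g' ∈ St (1 : Q))
    (hG : G ∈ St (1 : QZ Q)) (hS : S ∈ St (1 : QZ Q)) (i1 : Ind g G) (i2 : Ind t S)
    (hG' : G' ∈ St (1 : QZ Q)) (hS' : S' ∈ St (1 : QZ Q)) (i1' : Ind g' G') (i2' : Ind t' S')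
    {u u' : Q} (e : Ph G S (pz u) = - Ph G' S' (pz u')) : P4 k g t u = - P4 k g' t' u' := by
  have h1 := lev (g' := g) hA hG hS i1 i2 u
  have h2 := lev (g' := g') hA hG' hS' i1' i2' u'
  rw [e] at h1
  exact Ph_neg_of_pz hQ hk hg' h2 h1

/-! ### product rules -/

include hA in
theorem BB_mul1 {k k' g : Perm Q} (hk : k ∈ St (1 : Q)) (hk' : k' ∈ St (1 : Q))
    (hg : g ∈ St (1 : Q)) (w : Q) :
    BB hQ (k * k') g w = BB hQ k g w + BB hQ k' g w + io (P4 k k' g w) := by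
  unfold BB
  rw [dE_mul_left hQ hA hk hk' (der_ldS hg w), P4_def hQ hA hk' hg]

include hA in
theorem BB_inv1 {k g : Perm Q} (hk : k ∈ St (1 : Q)) (hg : g ∈ St (1 : Q)) (w : Q) :
    BB hQ k⁻¹ g w = - BB hQ k g w + io (P4 k k g w) := by
  unfold BB
  rw [dE_inv_left hQ hA hk (der_ldS hg w), P4_def hQ hA hk hg]

include hA in
theorem BB_mul2 {k g g' : Perm Q} (hk : k ∈ St (1 : Q)) (hg : g ∈ St (1 : Q))
    (hg' : g' ∈ St (1 : Q)) (w : Q) :
    BB hQ k (g * g') w = BB hQ k g w + BB hQ k g' w + io (P4 k g g' w) := by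
  rw [BB_symm hQ hA hk (mul_mem hg hg'), BB_mul1 hQ hA hg hg' hk, BB_symm hQ hA hg hk,
    BB_symm hQ hA hg' hk, P4_13 hQ hA hg hg' hk, P4_23 hQ hA hk hg' hg]

include hA in
theorem BB_inv2 {k g : Perm Q} (hk : k ∈ St (1 : Q)) (hg : g ∈ St (1 : Q)) (w : Q) :
    BB hQ k g⁻¹ w = - BB hQ k g w + io (P4 k g g w) := by
  rw [BB_symm hQ hA hk (inv_mem hg), BB_inv1 hQ hA hg hk, BB_symm hQ hA hg hk,
    P4_13 hQ hA hg hg hk]

/-! ### rules for the second argument -/

include hA in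
theorem BB_apply {k σ : Perm Q} (hk : k ∈ St (1 : Q)) (hσ : σ ∈ St (1 : Q)) {t : Perm Q}
    (ht : t ∈ St (1 : Q)) (u : Q) (h0 : P4 k σ t u = 0) :
    dE hQ k (σ (ld u (t u))) = BB hQ k t u := by
  rw [dE_apply hQ hA hk hσ (der_ldS ht u), P4_def hQ hA hσ ht, h0, io_zero, add_zero]
  rfl

include hA in
theorem BB_A {k : Perm Q} (hk : k ∈ St (1 : Q)) (a b z : Q) :
    BB hQ k (A a z) b = BB hQ k (l a b) z := by
  have hQ' : AIM (QZ Q) := hQ.quot _ _
  set c := ld z (l a b z) with hc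
  set d := ld b (A a z b) with hd
  have hzc : z * c = l a b z := mul_ld _ _
  have hbd : b * d = A a z b := mul_ld _ _
  have e1 : a * (b * z) = ((a * b) * z) * l (a * b) z c := by
    rw [l_spec a b z, ← hzc, l_spec]
  have e2 : (a * (b * d)) * z = a * (b * z) := by
    rw [hbd, A_apply, mul_ld, rd_mul]
  have e3 : l (a * b) z c = kap (a * b) z (l a b d) := by
    rw [e1, l_spec a b d, kap_spec] at e2
    exact ((mul_left_cancel_iff' _ _ _).1 e2).symm
  set σ := (l (a * b) z)⁻¹ * kap (a * b) z * l a b with hσ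
  have hσm : σ ∈ St (1 : Q) :=
    mul_mem (mul_mem (inv_mem (l_mem _ _)) (kap_mem _ _)) (l_mem _ _)
  have e4 : c = σ d := by
    rw [hσ, Perm.mul_apply, Perm.mul_apply, ← e3, pia]
  show _ = dE hQ k c
  rw [e4]
  symm
  apply BB_apply hQ hA hk hσm (A_mem a z)
  -- correction
  have i1 : Ind σ ((l (pz a * pz b) (pz z))⁻¹ * kap (pz a * pz b) (pz z) * l (pz a) (pz b)) :=
    ((Ind_l (a * b) z).inv.mul (Ind_kap (a * b) z)).mul (Ind_l a b)
  refine P4_van hA hk (mul_mem (mul_mem (inv_mem (l_mem _ _)) (kap_mem _ _)) (l_mem _ _))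
    (A_mem _ _) i1 (Ind_A a z) ?_
  generalize pz a = a', pz b = b', pz z = z'
  have hz := hA _ (A_mem a' z') b'
  rw [Ph_mul_left (mul_mem (inv_mem (l_mem _ _)) (kap_mem _ _)) (l_mem _ _) hz,
    Ph_mul_left (inv_mem (l_mem _ _)) (kap_mem _ _) hz, Ph_inv_left (l_mem _ _) hz,
    Ph_kap_left hA (A_mem a' z'), Ph_A hA (T_mem z'), Ph_A hA (A_mem _ _), Ph_A hA (l_mem a' b')]
  have f1 : Ph (T z') (l a' b') z' = 0 := th_14_self hQ' hA z' a' b'
  have f2 : Ph (A (a' * b') z') (l a' b') z' = 0 := by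
    rw [Ph_symm hQ' hA (A_mem _ _) (l_mem _ _), Ph_A hA (l_mem _ _)]
    exact ps_45_self hQ' hA a' b' (a' * b') z'
  have f3 : Ph (l a' b') (l a' b') z' = 0 := ps_13_self hQ' hA a' b' b' z'
  rw [f1, f2, f3]
  abel

include hQ in
/-- `zt` of a `K2` permutation is unaffected by inner mappings -/
theorem zt_K2_St {ρ σ : Perm Q} (hρ : K2 ρ) (hρ1 : ρ ∈ St (1 : Q)) (hσ : σ ∈ St (1 : Q))
    {c : Q} (hc : Der c) (hA : Al (QZ Q)) : zt ρ (σ c) = zt ρ c := by
  rw [dE_spec hQ hA hσ hc, K2_zt_mul hQ hρ hρ1.2 hc (dE_der hQ hA hσ hc),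
    zt_K2_dE hQ hρ hρ1 hσ hc hA, add_zero]

include hQ in
theorem zt_mulz {ρ : Perm Q} (hρ : K2 ρ) (hρ1 : ρ ∈ St (1 : Q))
    {c : Q} (hc : Der c) (z : Zn Q) : zt ρ (c * z.val) = zt ρ c := by
  apply zt_of_eq
  rw [z.act hρ1.1, K2_der hQ hρ hρ1.2 hc, z.Rz]

include hA in
theorem pair_inv {k : Perm Q} (hk : k ∈ St (1 : Q)) {X c d : Q} (hc : Der c) (hd : Der d)
    (h : (X * c) * d = X) : dE hQ k c + dE hQ k d = io (zt (rho k c) c) := by
  have hl := K2_l_right hA hc X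
  have hl1 := l_mem X c
  set δ := (l X c)⁻¹ d with hδ
  have dδ : Der δ := Der_St hd (inv_mem hl1)
  have e1 : d = δ * (zt (l X c) δ).val := by
    rw [← K2_der hQ hl hl1.2 dδ, hδ, pai]
  have e2 : c * δ = 1 := by
    have : X * (c * δ) = X * 1 := by
      rw [l_spec, hδ, pai, h, lmul_one]
    exact (mul_left_cancel_iff' _ _ _).1 this
  have e3 : dE hQ k d = dE hQ k δ := by
    rw [e1, dE_mulz hQ hA hk dδ]
  have e4 := dE_prod hQ hA hk hc dδ
  rw [e2, dE_one hQ hk] at e4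
  have hρ := K2_rho hQ hA hk hc
  have hρm := rho_mem hk c
  have e5 := K2_zt_mul hQ hρ hρm.2 hc dδ
  have e6 : zt (rho k c) 1 = 0 := by
    apply zt_of_eq
    rw [mul_zero_z]; exact hρm.2
  rw [e2, e6] at e5
  have e7 : zt (rho k c) δ = - zt (rho k c) c := eq_neg_of_add_eq_zero_right e5.symm
  rw [e7, io_neg] at e4
  rw [e3]
  linear_combination (norm := abel) -e4

include hA in
theorem pair_inv' {k σ g : Perm Q} (hk : k ∈ St (1 : Q)) (hσ : σ ∈ St (1 : Q))
    (hg : g ∈ St (1 : Q)) {x X d : Q} (hd : Der d)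
    (h : (X * σ (ld x (g x))) * d = X) : dE hQ k (σ (ld x (g x))) + dE hQ k d = 0 := by
  have hc : Der (ld x (g x)) := der_ldS hg x
  have hsc : Der (σ (ld x (g x))) := Der_St hc hσ
  rw [pair_inv hQ hA hk hsc hd h, zt_K2_St hQ (K2_rho hQ hA hk hsc) (rho_mem hk _) hσ hc hA,
    beta_symm hQ hA hk hsc hc, zt_K2_St hQ (K2_rho hQ hA hk hc) (rho_mem hk _) hσ hc hA,
    beta_same hQ hA hk hg hg x, io_zero]

include hA in
theorem BB_r {k : Perm Q} (hk : k ∈ St (1 : Q)) (a b z : Q) :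
    BB hQ k (r b z) a = - BB hQ k (l a b) z := by
  have hQ' : AIM (QZ Q) := hQ.quot _ _
  set c := ld z (l a b z) with hc
  set d := ld a (r b z a) with hd
  have dd : Der d := der_ldS (r_mem b z) a
  have hzc : z * c = l a b z := mul_ld _ _
  have had : a * d = r b z a := mul_ld _ _
  have e1 : a * (b * z) = ((a * b) * z) * l (a * b) z c := by
    rw [l_spec a b z, ← hzc, l_spec]
  have e2 : (a * b) * z = (a * (b * z)) * kap a (b * z) d := by
    rw [← kap_spec, had, r_apply, rd_mul]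
  have e3 : (((a * b) * z) * l (a * b) z c) * kap a (b * z) d = (a * b) * z := by
    rw [← e1, ← e2]
  have h1 := pair_inv' hQ hA hk (l_mem (a * b) z) (l_mem a b) (Der_St dd (kap_mem _ _)) e3
  have c1 : P4 k (l (a * b) z) (l a b) z = 0 := by
    refine P4_van hA hk (l_mem _ _) (l_mem _ _) (Ind_l _ _) (Ind_l _ _) ?_
    exact ps_25_self hQ' hA _ _ _ _
  have c2 : P4 k (kap a (b * z)) (r b z) a = 0 := by
    refine P4_van hA hk (kap_mem _ _) (r_mem _ _) (Ind_kap _ _) (Ind_r _ _) ?_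
    rw [pz_mul]
    generalize pz a = a', pz b = b', pz z = z'
    rw [Ph_r hQ' hA (kap_mem _ _), Ph_kap_left hA (l_mem _ _),
      Ph_symm hQ' hA (A_mem _ _) (l_mem _ _), Ph_A hA (l_mem _ _)]
    have f1 : Ph (l a' (b' * z')) (l a' b') z' = 0 := ps_13_self hQ' hA a' (b' * z') b' z'
    have f2 : Ph (T (b' * z')) (l a' b') z' = 0 := by
      have := rel1' hQ' hA a' b' b' z' z'
      rw [ps_45_self hQ' hA, th_13_self hQ' hA, th_14_self hQ' hA, smul_zero, sub_zero,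
        sub_zero] at this
      exact this
    have f3 : Ph (l a' b') (l a' z') (b' * z') = 0 := ps_13_self hQ' hA a' b' z' (b' * z')
    rw [f1, f2, f3]
    abel
  rw [BB_apply hQ hA hk (l_mem _ _) (l_mem _ _) z c1,
    BB_apply hQ hA hk (kap_mem _ _) (r_mem _ _) a c2] at h1
  exact eq_neg_of_add_eq_zero_right h1

include hA in
theorem BB_T {k : Perm Q} (hk : k ∈ St (1 : Q)) (x z : Q) :
    BB hQ k (T z) x = - BB hQ k (T x) z := by
  have hQ' : AIM (QZ Q) := hQ.quot _ _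
  set c := ld z (T x z) with hc
  set d := ld x (T z x) with hd
  have dd : Der d := der_ldS (T_mem z) x
  have hzc : z * c = T x z := mul_ld _ _
  have hxd : x * d = T z x := mul_ld _ _
  have e1 : x * z = (z * x) * kap z x c := by
    rw [← kap_spec, hzc, T_apply, rd_mul]
  have e2 : z * x = (x * z) * kap x z d := by
    rw [← kap_spec, hxd, T_apply, rd_mul]
  have e3 : ((z * x) * kap z x c) * kap x z d = z * x := by
    rw [← e1, ← e2]
  have h1 := pair_inv' hQ hA hk (kap_mem z x) (T_mem x) (Der_St dd (kap_mem _ _)) e3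
  have c1 : P4 k (kap z x) (T x) z = 0 := by
    refine P4_van hA hk (kap_mem _ _) (T_mem _) (Ind_kap _ _) (Ind_T _) ?_
    rw [Ph_kap_self hQ' hA (T_mem _)]
    have := ta_22_self hQ' hA (pz x) (pz z)
    unfold ta at this
    rw [this, neg_zero]
  have c2 : P4 k (kap x z) (T z) x = 0 := by
    refine P4_van hA hk (kap_mem _ _) (T_mem _) (Ind_kap _ _) (Ind_T _) ?_
    rw [Ph_kap_self hQ' hA (T_mem _)]
    have := ta_22_self hQ' hA (pz z) (pz x)
    unfold ta at this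
    rw [this, neg_zero]
  rw [BB_apply hQ hA hk (kap_mem _ _) (T_mem _) z c1,
    BB_apply hQ hA hk (kap_mem _ _) (T_mem _) x c2] at h1
  exact eq_neg_of_add_eq_zero_right h1

theorem BB_T_self {k : Perm Q} (hk : k ∈ St (1 : Q)) (x : Q) : BB hQ k (T x) x = 0 := by
  unfold BB
  rw [T_self, ld_self, dE_one hQ hk]

end four

end H56
end LpAim
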