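import Pool.Agent.NH56.AimG

/-!
# The lifted pairing: relation, product rule and shift rule
-/

namespace LpAim
namespace H56

open Equiv

universe u v

section c3
variable {Q : Type u} [Loop Q] (hQ : AIM Q) (hA : Al Q)

include hQ hA

theorem c3_12 (x y w : Q) : Ph (T x) (r x y) w = 0 := by
  rw [Ph_r hQ hA (T_mem x)]
  have := th_13_self hQ hA x w y
  unfold th at this
  rw [this, neg_zero]

theorem c3_13 (x y w : Q) : Ph (T x) (T (x * y)) w = Ph (T x) (T y) w := by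
  have h := rel2 hQ hA x x y w
  rw [ta_22_self hQ hA, th_12_self hQ hA, smul_zero] at h
  show ta x (x * y) w = ta x y w
  linear_combination (norm := abel) h

theorem c3_14 (x y w : Q) : Ph (T x) (l x y) w = 0 := th_12_self hQ hA x y w

theorem c3_23 (x y w : Q) : Ph (r x y) (T (x * y)) w = 0 := by
  rw [Ph_symm hQ hA (r_mem x y) (T_mem _), Ph_r hQ hA (T_mem _)]
  have h := rel1' hQ hA w x x y y
  rw [th_13_self hQ hA, th_14_self hQ hA, ps_23_self hQ hA, smul_zero] at h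
  have h2 : th (x * y) w x y = 0 := by linear_combination (norm := abel) h
  unfold th at h2
  rw [h2, neg_zero]

theorem c3_24 (x y w : Q) : Ph (r x y) (l x y) w = 0 := by
  rw [Ph_symm hQ hA (r_mem x y) (l_mem _ _), Ph_r hQ hA (l_mem _ _)]
  have h := ps_14_self hQ hA x y w y
  unfold ps at h
  rw [h, neg_zero]

theorem c3_25 (x y w : Q) : Ph (r x y) (T y) w = 0 := by
  rw [Ph_symm hQ hA (r_mem x y) (T_mem _), Ph_r hQ hA (T_mem _)]
  have h := th_14_self hQ hA y w x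
  unfold th at h
  rw [h, neg_zero]

theorem c3_34 (x y w : Q) : Ph (T (x * y)) (l x y) w = 0 := by
  have h := rel1' hQ hA x y x y w
  rw [th_12_self hQ hA, th_13_self hQ hA, ps_13_self hQ hA, smul_zero] at h
  show th (x * y) x y w = 0
  linear_combination (norm := abel) h

theorem c3_35 (x y w : Q) : Ph (T (x * y)) (T y) w = Ph (T x) (T y) w := by
  have h := rel2 hQ hA y x y w
  rw [ta_22_self hQ hA, th_13_self hQ hA, smul_zero] at h
  show ta (x * y) y w = ta x y w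
  rw [ta_12 hQ hA (x * y) y, ta_12 hQ hA x y]
  linear_combination (norm := abel) h

theorem c3_45 (x y w : Q) : Ph (l x y) (T y) w = 0 := by
  rw [Ph_symm hQ hA (l_mem x y) (T_mem _)]
  exact th_13_self hQ hA y x w

theorem c3_11 (x w : Q) : Ph (T x) (T x) w = 0 := ta_22_self hQ hA x w

theorem c3_22 (x y w : Q) : Ph (r x y) (r x y) w = 0 := by
  rw [Ph_r hQ hA (r_mem _ _), Ph_symm hQ hA (r_mem _ _) (l_mem _ _), Ph_r hQ hA (l_mem _ _)]
  have h := ps_24_self hQ hA w x y y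
  unfold ps at h
  rw [h, neg_zero, neg_zero]

end c3

section four
variable {Q : Type u} [Loop Q] (hQ : AIM Q) (hA : Al (QZ Q))

include hQ hA in
theorem P4_mul2 {k g g' t : Perm Q} (hk : k ∈ St (1 : Q)) (hg : g ∈ St (1 : Q))
    (hg' : g' ∈ St (1 : Q)) (ht : t ∈ St (1 : Q)) (u : Q) :
    P4 k (g * g') t u = P4 k g t u + P4 k g' t u := by
  rw [P4_12 hQ hA hk (mul_mem hg hg') ht, P4_mul1 hA hg hg' hk ht, P4_12 hQ hA hg hk ht,
    P4_12 hQ hA hg' hk ht]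

include hQ hA in
theorem P4_inv2 {k g t : Perm Q} (hk : k ∈ St (1 : Q)) (hg : g ∈ St (1 : Q))
    (ht : t ∈ St (1 : Q)) (u : Q) :
    P4 k g⁻¹ t u = - P4 k g t u := by
  rw [P4_12 hQ hA hk (inv_mem hg) ht, P4_inv1 hA hg hk ht, P4_12 hQ hA hg hk ht]

include hQ hA in
theorem P4_mul3 {k g t t' : Perm Q} (hk : k ∈ St (1 : Q)) (hg : g ∈ St (1 : Q))
    (ht : t ∈ St (1 : Q)) (ht' : t' ∈ St (1 : Q)) (u : Q) :
    P4 k g (t * t') u = P4 k g t u + P4 k g t' u := by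
  rw [P4_23 hQ hA hk hg (mul_mem ht ht'), P4_mul2 hQ hA hk ht ht' hg,
    P4_23 hQ hA hk ht hg, P4_23 hQ hA hk ht' hg]

include hQ hA in
theorem P4_inv3 {k g t : Perm Q} (hk : k ∈ St (1 : Q)) (hg : g ∈ St (1 : Q))
    (ht : t ∈ St (1 : Q)) (u : Q) :
    P4 k g t⁻¹ u = - P4 k g t u := by
  rw [P4_23 hQ hA hk hg (inv_mem ht), P4_inv2 hQ hA hk ht hg, P4_23 hQ hA hk ht hg]

include hA in
theorem BB_five {k t1 t2 t3 t4 t5 : Perm Q} (hk : k ∈ St (1 : Q)) (m1 : t1 ∈ St (1 : Q))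
    (m2 : t2 ∈ St (1 : Q)) (m3 : t3 ∈ St (1 : Q)) (m4 : t4 ∈ St (1 : Q)) (m5 : t5 ∈ St (1 : Q))
    (w : Q) (p : Zn Q) (p11 : P4 k t1 t1 w = 0) (p22 : P4 k t2 t2 w = 0)
    (p55 : P4 k t5 t5 w = 0) (p12 : P4 k t1 t2 w = 0) (p13 : P4 k t1 t3 w = p)
    (p14 : P4 k t1 t4 w = 0) (p15 : P4 k t1 t5 w = p) (p23 : P4 k t2 t3 w = 0)
    (p24 : P4 k t2 t4 w = 0) (p25 : P4 k t2 t5 w = 0) (p34 : P4 k t3 t4 w = 0)
    (p35 : P4 k t3 t5 w = p) (p45 : P4 k t4 t5 w = 0) :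
    BB hQ k (t1⁻¹ * t2⁻¹ * t3 * t4 * t5⁻¹) w = - BB hQ k t1 w - BB hQ k t2 w + BB hQ k t3 w
      + BB hQ k t4 w - BB hQ k t5 w - io p := by
  have n1 := inv_mem m1
  have n2 := inv_mem m2
  have n5 := inv_mem m5
  have q2 := mul_mem n1 n2
  have q3 := mul_mem q2 m3
  have q4 := mul_mem q3 m4
  have c12 : P4 k t1⁻¹ t2⁻¹ w = 0 := by
    rw [P4_inv2 hQ hA hk m1 n2, P4_inv3 hQ hA hk m1 m2, p12, neg_zero, neg_zero]
  have c3 : P4 k (t1⁻¹ * t2⁻¹) t3 w = - p := by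
    rw [P4_mul2 hQ hA hk n1 n2 m3, P4_inv2 hQ hA hk m1 m3, P4_inv2 hQ hA hk m2 m3, p13, p23]
    abel
  have c4 : P4 k (t1⁻¹ * t2⁻¹ * t3) t4 w = 0 := by
    rw [P4_mul2 hQ hA hk q2 m3 m4, P4_mul2 hQ hA hk n1 n2 m4, P4_inv2 hQ hA hk m1 m4,
      P4_inv2 hQ hA hk m2 m4, p14, p24, p34]
    abel
  have c5 : P4 k (t1⁻¹ * t2⁻¹ * t3 * t4) t5⁻¹ w = 0 := by
    rw [P4_inv3 hQ hA hk q4 m5, P4_mul2 hQ hA hk q3 m4 m5, P4_mul2 hQ hA hk q2 m3 m5,
      P4_mul2 hQ hA hk n1 n2 m5, P4_inv2 hQ hA hk m1 m5,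
      P4_inv2 hQ hA hk m2 m5, p15, p25, p35, p45]
    abel
  rw [BB_mul2 hQ hA hk q4 n5, BB_mul2 hQ hA hk q3 m4, BB_mul2 hQ hA hk q2 m3,
    BB_mul2 hQ hA hk n1 n2, BB_inv2 hQ hA hk m1, BB_inv2 hQ hA hk m2, BB_inv2 hQ hA hk m5,
    c12, c3, c4, c5, p11, p22, p55, io_zero, io_neg]
  abel

include hA in
theorem BB_rel {k : Perm Q} (hk : k ∈ St (1 : Q)) (x y w : Q) :
    BB hQ k (l x w) y = BB hQ k (l w x) y + BB hQ k (l x y) w + BB hQ k (T (x * y)) w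
      - BB hQ k (T x) w - BB hQ k (T y) w - io (P4 k (T x) (T y) w) := by
  have hQ' : AIM (QZ Q) := hQ.quot _ _
  have iTT : Ind (T (x * y)) (T (pz x * pz y)) := Ind_T (x * y)
  have iT := Ind_T x
  have iT' := Ind_T y
  have ir := Ind_r x y
  have il := Ind_l x y
  have MT := T_mem (pz x)
  have MT' := T_mem (pz y)
  have MTT := T_mem (pz x * pz y)
  have Mr := r_mem (pz x) (pz y)
  have Ml := l_mem (pz x) (pz y)
  have p11 : P4 k (T x) (T x) w = 0 :=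
    P4_van hA hk MT MT iT iT (c3_11 hQ' hA (pz x) (pz w))
  have p22 : P4 k (r x y) (r x y) w = 0 :=
    P4_van hA hk Mr Mr ir ir (c3_22 hQ' hA (pz x) (pz y) (pz w))
  have p55 : P4 k (T y) (T y) w = 0 :=
    P4_van hA hk MT' MT' iT' iT' (c3_11 hQ' hA (pz y) (pz w))
  have p12 : P4 k (T x) (r x y) w = 0 :=
    P4_van hA hk MT Mr iT ir (c3_12 hQ' hA (pz x) (pz y) (pz w))
  have p13 : P4 k (T x) (T (x * y)) w = P4 k (T x) (T y) w :=
    P4_congr hA hk MT MTT iT iTT MT MT' iT iT' (c3_13 hQ' hA (pz x) (pz y) (pz w))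
  have p14 : P4 k (T x) (l x y) w = 0 :=
    P4_van hA hk MT Ml iT il (c3_14 hQ' hA (pz x) (pz y) (pz w))
  have p23 : P4 k (r x y) (T (x * y)) w = 0 :=
    P4_van hA hk Mr MTT ir iTT (c3_23 hQ' hA (pz x) (pz y) (pz w))
  have p24 : P4 k (r x y) (l x y) w = 0 :=
    P4_van hA hk Mr Ml ir il (c3_24 hQ' hA (pz x) (pz y) (pz w))
  have p25 : P4 k (r x y) (T y) w = 0 :=
    P4_van hA hk Mr MT' ir iT' (c3_25 hQ' hA (pz x) (pz y) (pz w))
  have p34 : P4 k (T (x * y)) (l x y) w = 0 :=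
    P4_van hA hk MTT Ml iTT il (c3_34 hQ' hA (pz x) (pz y) (pz w))
  have p35 : P4 k (T (x * y)) (T y) w = P4 k (T x) (T y) w :=
    P4_congr hA hk MTT MT' iTT iT' MT MT' iT iT' (c3_35 hQ' hA (pz x) (pz y) (pz w))
  have p45 : P4 k (l x y) (T y) w = 0 :=
    P4_van hA hk Ml MT' il iT' (c3_45 hQ' hA (pz x) (pz y) (pz w))
  have h := BB_five hQ hA hk (T_mem x) (r_mem x y) (T_mem (x * y)) (l_mem x y) (T_mem y) w
    (P4 k (T x) (T y) w) p11 p22 p55 p12 p13 p14 rfl p23 p24 p25 p34 p35 p45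
  rw [← A_eq, BB_A hQ hA hk x w y, BB_r hQ hA hk w x y] at h
  rw [h]
  abel

include hA in
/-- composite displacement -/
theorem dE_pair {k : Perm Q} (hk : k ∈ St (1 : Q)) {c d : Q} (hc : Der c) (hd : Der d) (X : Q) :
    dE hQ k (ld X ((X * c) * d)) = dE hQ k c + dE hQ k d + io (zt (rho k c) d) := by
  have hl := K2_l_right hA hc X
  have hl1 := l_mem X c
  set δ := (l X c)⁻¹ d with hδ
  have dδ : Der δ := Der_St hd (inv_mem hl1)
  have e1 : d = δ * (zt (l X c) δ).val := by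
    rw [← K2_der hQ hl hl1.2 dδ, hδ, pai]
  have e2 : ld X ((X * c) * d) = c * δ := by
    symm
    rw [eq_ld_iff, l_spec, hδ, pai]
  have e3 : dE hQ k d = dE hQ k δ := by
    conv_lhs => rw [e1]
    rw [dE_mulz hQ hA hk dδ]
  have e4 : zt (rho k c) d = zt (rho k c) δ := by
    conv_lhs => rw [e1]
    rw [zt_mulz hQ (K2_rho hQ hA hk hc) (rho_mem hk c) dδ]
  rw [e2, e3, e4, dE_prod hQ hA hk hc dδ]

include hA in
/-- the rule for a product in the last argument -/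
theorem BB_mulM {k g : Perm Q} (hk : k ∈ St (1 : Q)) (hg : g ∈ St (1 : Q)) (z w : Q) :
    BB hQ k g (z * w) = BB hQ k g z + BB hQ k (mm g z) w
      + io (- P4 k (T w) g z + zt (rho k (ld z (g z))) (ld w (mm g z w))) := by
  have hQ' : AIM (QZ Q) := hQ.quot _ _
  have hm := mm_mem hg.1 z
  have hc : Der (ld z (g z)) := der_ldS hg z
  have hd : Der (ld w (mm g z w)) := der_ldS hm w
  have h1 : BB hQ k g (z * w) = dE hQ k (ld (z * w) (((z * w) * kap z w (ld z (g z)))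
      * l (z * ld z (g z)) w (ld w (mm g z w)))) := by
    unfold BB
    congr 2
    rw [← kap_spec, ← l_spec, mul_ld, mul_ld, mm_spec]
  have c1 : P4 k (kap z w) g z = - P4 k (T w) g z := by
    obtain ⟨G, hG, i⟩ := exists_Ind hg
    exact P4_neg hQ hA hk (T_mem w) (kap_mem _ _) hG (Ind_kap _ _) i (T_mem _) hG (Ind_T _) i
      (Ph_kap_self hQ' hA hG _ _)
  have c2 : P4 k (l (z * ld z (g z)) w) (mm g z) w = 0 := by
    obtain ⟨G, hG, i⟩ := exists_Ind hg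
    refine P4_van hA hk (l_mem _ _) (mm_mem hG.1 _) (Ind_l _ _) (i.mm z) ?_
    rw [Ph_symm hQ' hA (l_mem _ _) (mm_mem hG.1 _), G_self23 hQ' hA (mm_mem hG.1 _)]
  have dk := Der_St hc (kap_mem z w)
  have dl := Der_St hd (l_mem (z * ld z (g z)) w)
  rw [h1, dE_pair hQ hA hk dk dl, BB_apply hQ hA hk (l_mem _ _) hm w c2,
    dE_apply hQ hA hk (kap_mem _ _) hc, P4_def hQ hA (kap_mem _ _) hg, c1,
    zt_K2_St hQ (K2_rho hQ hA hk dk) (rho_mem hk _) (l_mem _ _) hd hA,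
    beta_symm hQ hA hk dk hd,
    zt_K2_St hQ (K2_rho hQ hA hk hd) (rho_mem hk _) (kap_mem _ _) hc hA,
    beta_symm hQ hA hk hd hc, io_add]
  unfold BB
  abel

include hQ hA in
theorem comm3 (z : Q) {c m : Q} (hc : Der c) (hm : Der m) :
    ∃ ζ : Zn Q, (z * c) * m = ((z * m) * c) * ζ.val := by
  have hl := K2_l_right hA hc z
  have hl1 := l_mem z c
  have dδ : Der ((l z c)⁻¹ m) := Der_St hm (inv_mem hl1)
  have e1 : m = (l z c)⁻¹ m * (zt (l z c) ((l z c)⁻¹ m)).val := by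
    rw [← K2_der hQ hl hl1.2 dδ, pai]
  have e2 : (z * c) * m = z * (c * (l z c)⁻¹ m) := by
    rw [l_spec, pai]
  set ζ1 := zt (l z c) ((l z c)⁻¹ m) with hζ1
  have e3 : c * (l z c)⁻¹ m = (c * m) * (-ζ1).val := by
    conv_rhs => rw [e1]
    rw [ζ1.Lz, mul_neg_z]
  have e4 := comm_der hQ hA hc hm
  set ζ2 := zt (T c) m with hζ2
  have hm2 := K2_l_right hA hm z
  have e5 := K2_der hQ hm2 (l_mem z m).2 hc
  set ζ3 := zt (l z m) c with hζ3
  refine ⟨ζ3 + (ζ2 + -ζ1), ?_⟩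
  rw [e2, e3, e4, ← mul_add_z, (ζ2 + -ζ1).Lz, l_spec, e5, ζ3.Lz, ← mul_add_z]

include hA in
/-- the shift rule -/
theorem BB_shift {k g : Perm Q} (hk : k ∈ St (1 : Q)) (hg : g ∈ St (1 : Q)) (z : Q) {m : Q}
    (hm : Der m) :
    BB hQ k g (z * m) = BB hQ k g z + io (zt k (dE hQ (mm g z) m).val) := by
  have hmm := mm_mem hg.1 z
  have hc : Der (ld z (g z)) := der_ldS hg z
  set c := ld z (g z) with hcd
  set P := dE hQ (mm g z) m with hP
  have dP : Der P.val := dE_der hQ hA hmm hm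
  obtain ⟨ζ, hζ⟩ := comm3 hQ hA z hc hm
  have e1 : g (z * m) = (z * m) * ((c * P.val) * ζ.val) := by
    rw [mm_spec, dE_spec hQ hA hmm hm, assocP hQ (DZ_of hm) P.z2]
    have : g z = z * c := (mul_ld _ _).symm
    rw [this, hζ, ζ.Rz, ← assocP hQ (DZ_of hc) P.z2, ζ.Lz]
  have e2 : ld (z * m) (g (z * m)) = (c * P.val) * ζ.val := by rw [e1, ld_mul]
  show dE hQ k (ld (z * m) (g (z * m))) = dE hQ k c + _
  rw [e2, dE_mulz hQ hA hk (hc.mul dP)]
  apply dE_eq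
  rw [act_dE hQ hA hk hmm hc hm, ← mul_add_e]
  congr 2
  abel

include hA in
theorem pe_mm {g t σ : Perm Q} {G S : Perm (QZ Q)} (hg : g ∈ St (1 : Q)) (ht : t ∈ St (1 : Q))
    (hσ : σ ∈ St (1 : Q)) (hG : G ∈ St (1 : QZ Q)) (hS : S ∈ St (1 : QZ Q)) (i1 : Ind g G)
    (i2 : Ind t S) (v u : Q) :
    pe (dE hQ (mm g v) (σ (ld u (t u)))) = Ph S G (pz v * pz u) - Ph S G (pz v) := by
  have hQ' : AIM (QZ Q) := hQ.quot _ _
  have hc : Der (ld u (t u)) := der_ldS ht u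
  rw [dE_apply hQ hA (mm_mem hg.1 v) hσ hc, pe_add, pe_io, add_zero,
    pe_dE_c hQ hA (mm_mem hg.1 v) ht (mm_mem hG.1 _) (i1.mm v) i2,
    Ph_symm hQ' hA (mm_mem hG.1 _) hS, Ph_mm hQ' hA hS hG]

include hA in
/-- effect of commuting two factors of the last argument -/
theorem BB_comm {k g : Perm Q} {G : Perm (QZ Q)} (hk : k ∈ St (1 : Q)) (hg : g ∈ St (1 : Q))
    (hG : G ∈ St (1 : QZ Q)) (i : Ind g G) (x y : Q) (E : E2 hQ)
    (hE : pe E = Ph (T (pz x)) G ((pz y * pz x) * pz y) - Ph (T (pz x)) G (pz y * pz x)) :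
    BB hQ k g (x * y) = BB hQ k g (y * x) + io (zt k E.val) := by
  have e1 : x * y = (y * x) * kap y x (ld y (T x y)) := by
    rw [← kap_spec, mul_ld, T_apply, rd_mul]
  have hc : Der (ld y (T x y)) := der_ldS (T_mem x) y
  rw [e1, BB_shift hQ hA hk hg (y * x) (Der_St hc (kap_mem y x))]
  congr 2
  apply zt_pe hk
  rw [hE, pe_mm hQ hA hg (T_mem x) (kap_mem y x) hG (T_mem _) i (Ind_T x) (y * x) y]
  rfl

end four

end H56
end LpAim
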