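import Pool.Agent.NH56.AimH

/-!
# The lifted forms and their identities
-/

namespace LpAim
namespace H56

open Equiv

universe u v

section c3
variable {Q : Type u} [Loop Q] (hQ : AIM Q) (hA : Al Q)

include hQ hA

theorem c3_comm_ta (x y w : Q) :
    Ph (T x) (T w) ((y * x) * y) - Ph (T x) (T w) (y * x) = - Ph (T x) (T y) w := by
  have h1 := rel2 hQ hA x (y * x) y w
  have h2 := rel1' hQ hA x y y x w
  rw [th_13_self hQ hA, th_12_self hQ hA, ps_23_self hQ hA, smul_zero] at h2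
  have h3 := th_12 hQ hA x (y * x) y w
  have h4 : th x (y * x) y w = 0 := by
    rw [h3]
    have : th (y * x) x y w = 0 := by linear_combination (norm := abel) h2
    rw [this, neg_zero]
  rw [h4, smul_zero] at h1
  have h5 := ta_23 hQ hA x w ((y * x) * y)
  have h6 := ta_23 hQ hA x w (y * x)
  show ta x w ((y * x) * y) - ta x w (y * x) = - ta x y w
  rw [h5, h6]
  linear_combination (norm := abel) - h1

theorem c3_comm_th (x y a b : Q) :
    Ph (T x) (l a b) ((y * x) * y) - Ph (T x) (l a b) (y * x) = Ph (T x) (l a b) y := by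
  have h1 := rel1' hQ hA a b (y * x) y x
  have h2 : ps a b (y * x) y x = 0 := by
    rw [ps_add3 hQ hA, ps_34_self hQ hA, ps_35_self hQ hA, add_zero]
  rw [h2, smul_zero] at h1
  show th x a b ((y * x) * y) - th x a b (y * x) = th x a b y
  rw [th_14 hQ hA x a b ((y * x) * y), th_14 hQ hA x a b (y * x), th_14 hQ hA x a b y]
  linear_combination (norm := abel) - h1

theorem c3_comm_r (x y z w : Q) :
    Ph (T x) (r z w) ((y * x) * y) - Ph (T x) (r z w) (y * x) = - Ph (T x) (l y z) w := by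
  have h1 := rel1' hQ hA x z (y * x) y w
  have h2 : ps x z (y * x) y w = 0 := by
    rw [ps_add3 hQ hA, ps_34_self hQ hA, ps_13_self hQ hA, add_zero]
  rw [h2, smul_zero] at h1
  rw [Ph_r hQ hA (T_mem x), Ph_r hQ hA (T_mem x)]
  show - th x ((y * x) * y) z w - - th x (y * x) z w = - th x y z w
  rw [th_12 hQ hA x ((y * x) * y), th_12 hQ hA x (y * x), th_12 hQ hA x y]
  linear_combination (norm := abel) h1

theorem ps_25 (a b x y z : Q) : ps a b x y z = - ps a x y z b := by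
  rw [ps_45 hQ hA a x y b z, ps_34 hQ hA a x b y z, ps_23 hQ hA a b x y z]
  abel

theorem ps_arg2 (a z x y w : Q) {c : Q} (hc : IsZ2 c) :
    ps a (z * c) x y w = ps a z x y w := by
  rw [ps_25 hQ hA a (z * c), ps_25 hQ hA a z]
  congr 1
  exact Ph_arg_Z2 hA (l_mem _ _) (l_mem _ _) z hc

theorem c3_sq (x y z w : Q) : Ph (mm (A (x * y) w) z) (l x y) z = 0 := by
  rw [Ph_symm hQ hA (mm_mem (A_mem _ _).1 z) (l_mem x y), Ph_mm hQ hA (l_mem x y) (A_mem _ _),
    Ph_sq hQ hA (l_mem x y) (A_mem _ _), Ph_A hA (l_mem x y)]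
  have h : ps x y (x * y) z w = 0 := by
    rw [ps_add3 hQ hA, ps_13_self hQ hA, ps_23_self hQ hA, add_zero]
  unfold ps at h
  rw [h]
  abel

theorem c3_g12 (x y z z' w : Q) (hz : ∃ c, IsZ2 c ∧ z' = z * c) :
    Ph (l (x * y) z') (l x (y * z)) w = 0 := by
  obtain ⟨c, hc, rfl⟩ := hz
  show ps (x * y) (z * c) x (y * z) w = 0
  rw [ps_arg2 hQ hA _ _ _ _ _ hc, ps_add1 hQ hA, ps_13_self hQ hA, ps_add4 hQ hA,
    ps_14_self hQ hA, ps_24_self hQ hA]
  abel

theorem c3_g13 (x y z z' w : Q) (hz : ∃ c, IsZ2 c ∧ z' = z * c) :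
    Ph (l (x * y) z') (l y z) w = 0 := by
  obtain ⟨c, hc, rfl⟩ := hz
  show ps (x * y) (z * c) y z w = 0
  rw [ps_arg2 hQ hA _ _ _ _ _ hc, ps_24_self hQ hA]

theorem c3_g23 (x y z w : Q) : Ph (l x (y * z)) (l y z) w = 0 := by
  show ps x (y * z) y z w = 0
  rw [ps_add2 hQ hA, ps_23_self hQ hA, ps_24_self hQ hA]
  abel

theorem c3_add5 (a b x y v u : Q) :
    Ph (l a b) (l x y) (v * u) - Ph (l a b) (l x y) v = Ph (l a b) (l x y) u := by
  have h := ps_add5 hQ hA a b x y v u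
  unfold ps at h
  rw [h]; abel

end c3

section four
variable {Q : Type u} [Loop Q] (hQ : AIM Q) (hA : Al (QZ Q))

/-- lifted `ψ` -/
noncomputable def Ps (a b x y z : Q) : E2 hQ := BB hQ (l a b) (l x y) z
/-- lifted `θ` -/
noncomputable def Th (x a b w : Q) : E2 hQ := BB hQ (T x) (l a b) w
/-- lifted `τ` -/
noncomputable def Ta (a x w : Q) : E2 hQ := BB hQ (T a) (T x) w

include hA

theorem Ps_s (a b x y z : Q) : Ps hQ a b x y z = Ps hQ x y a b z :=
  BB_symm hQ hA (l_mem a b) (l_mem x y) z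

theorem Ps_c (a b x y z : Q) : Ps hQ a b x y z = Ps hQ x b a z y := by
  unfold Ps
  rw [← BB_A hQ hA (l_mem a b), BB_symm hQ hA (l_mem a b) (A_mem x z),
    ← BB_A hQ hA (A_mem x z), BB_symm hQ hA (A_mem x z) (A_mem a y),
    BB_A hQ hA (A_mem a y) x b z, BB_symm hQ hA (A_mem a y) (l_mem x b),
    BB_A hQ hA (l_mem x b) a z y]

theorem Ps_d (a b x y z : Q) : Ps hQ a b x y z = Ps hQ a y z b x := by
  unfold Ps
  have h1 := BB_r hQ hA (l_mem a b) x y z
  have h2 := BB_symm hQ hA (l_mem a b) (r_mem y z) x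
  have h3 := BB_r hQ hA (r_mem y z) a b x
  have h4 := BB_symm hQ hA (r_mem b x) (r_mem y z) a
  have h5 := BB_r hQ hA (r_mem b x) a y z
  have h6 := BB_symm hQ hA (l_mem a y) (r_mem b x) z
  have h7 := BB_r hQ hA (l_mem a y) z b x
  calc BB hQ (l a b) (l x y) z = - BB hQ (l a b) (r y z) x := by rw [h1]; abel
    _ = - BB hQ (r y z) (l a b) x := by rw [h2]
    _ = BB hQ (r y z) (r b x) a := by rw [h3]
    _ = BB hQ (r b x) (r y z) a := h4.symm
    _ = - BB hQ (r b x) (l a y) z := h5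
    _ = - BB hQ (l a y) (r b x) z := by rw [h6]
    _ = BB hQ (l a y) (l z b) x := by rw [h7]; abel

theorem Ps_cs (a b x y z : Q) : Ps hQ a b x y z = Ps hQ a y x z b := by
  rw [Ps_s hQ hA, Ps_c hQ hA]

theorem Ps_cyc3 (a b x y z : Q) : Ps hQ a b x y z = Ps hQ a b z x y := by
  rw [Ps_d hQ hA, Ps_cs hQ hA]

theorem Th_14 (x a b w : Q) : Th hQ x a b w = - Th hQ w a b x := by
  unfold Th
  rw [BB_symm hQ hA (T_mem x) (l_mem a b), BB_T hQ hA (l_mem a b) w x,
    BB_symm hQ hA (l_mem a b) (T_mem w)]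

theorem Th_13 (x a b w : Q) : Th hQ x a b w = - Th hQ b a x w := by
  unfold Th
  rw [← BB_A hQ hA (T_mem x), BB_symm hQ hA (T_mem x) (A_mem a w),
    BB_T hQ hA (A_mem a w) b x, BB_symm hQ hA (A_mem a w) (T_mem b), BB_A hQ hA (T_mem b)]

theorem Th_12 (x a b w : Q) : Th hQ x a b w = - Th hQ a x b w := by
  unfold Th
  have h1 := BB_r hQ hA (T_mem x) a b w
  have h2 := BB_symm hQ hA (T_mem x) (r_mem b w) a
  have h3 := BB_T hQ hA (r_mem b w) a x
  have h4 := BB_symm hQ hA (r_mem b w) (T_mem a) x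
  have h5 := BB_r hQ hA (T_mem a) x b w
  calc BB hQ (T x) (l a b) w = - BB hQ (T x) (r b w) a := by rw [h1]; abel
    _ = - BB hQ (r b w) (T x) a := by rw [h2]
    _ = BB hQ (r b w) (T a) x := by rw [h3]; abel
    _ = BB hQ (T a) (r b w) x := h4
    _ = - BB hQ (T a) (l x b) w := h5

theorem Th_23 (x a b w : Q) : Th hQ x a b w = - Th hQ x b a w := by
  have h1 := Th_12 hQ hA x a b w
  have h2 := Th_13 hQ hA a x b w
  have h3 := Th_12 hQ hA b x a w
  rw [h1, h2, h3, neg_neg]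

theorem Th_34 (x a b w : Q) : Th hQ x a b w = - Th hQ x a w b := by
  have h1 := Th_14 hQ hA x a b w
  have h2 := Th_13 hQ hA w a b x
  have h3 := Th_14 hQ hA b a w x
  rw [h1, h2, neg_neg, h3]

theorem Ta_12 (a x w : Q) : Ta hQ a x w = Ta hQ x a w :=
  BB_symm hQ hA (T_mem a) (T_mem x) w

theorem Ta_23 (a x w : Q) : Ta hQ a x w = - Ta hQ a w x := BB_T hQ hA (T_mem a) w x

theorem Ta_13 (a x w : Q) : Ta hQ a x w = - Ta hQ w x a := by
  rw [Ta_12 hQ hA, Ta_23 hQ hA, Ta_12 hQ hA]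

theorem Ta_two (a x w : Q) : Ta hQ a x w + Ta hQ a x w = 0 := by
  have h1 := Ta_13 hQ hA a x w
  have h2 : Ta hQ a x w = Ta hQ w x a := by
    calc Ta hQ a x w = - Ta hQ a w x := Ta_23 hQ hA a x w
      _ = - Ta hQ w a x := by rw [Ta_12 hQ hA a w x]
      _ = Ta hQ w x a := by rw [Ta_23 hQ hA w a x, neg_neg]
  rw [← h2] at h1
  nth_rewrite 1 [h1]
  exact neg_add_cancel _

include hQ in
theorem P4TT_two {k : Perm Q} (hk : k ∈ St (1 : Q)) (x y w : Q) :
    P4 k (T x) (T y) w + P4 k (T x) (T y) w = 0 := by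
  have hQ' : AIM (QZ Q) := hQ.quot _ _
  have h : P4 k (T x) (T y) w = - P4 k (T x) (T y) w := by
    refine P4_neg hQ hA hk (T_mem x) (T_mem _) (T_mem _) (Ind_T x) (Ind_T y) (T_mem _) (T_mem _)
      (Ind_T x) (Ind_T y) ?_
    have := ta_two hQ' hA (pz x) (pz y) (pz w)
    exact eq_neg_of_add_eq_zero_left this
  nth_rewrite 1 [h]
  exact neg_add_cancel _

include hQ in
theorem F5_swap (a z x y b : Q) :
    P4 (l a z) (T x) (T y) b = - P4 (l a b) (T x) (T y) z := by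
  have hQ' : AIM (QZ Q) := hQ.quot _ _
  rw [P4_13 hQ hA (l_mem a z) (T_mem x) (T_mem y), P4_13 hQ hA (l_mem a b) (T_mem x) (T_mem y)]
  exact P4_neg hQ hA (T_mem y) (T_mem x) (T_mem _) (l_mem _ _) (Ind_T x) (Ind_l a z)
    (T_mem _) (l_mem _ _) (Ind_T x) (Ind_l a b) (th_34 hQ' hA (pz x) (pz a) (pz z) (pz b))

/-- relation (1) -/
theorem Rel1 (a b x y w : Q) : Th hQ (x * y) a b w - Th hQ x a b w - Th hQ y a b w
    = Ps hQ a b x w y - Ps hQ a b x y w - Ps hQ a b x y w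
      + io (P4 (l a b) (T x) (T y) w) := by
  have h := BB_rel hQ hA (l_mem a b) x y w
  have e1 : BB hQ (l a b) (T (x * y)) w = Th hQ (x * y) a b w :=
    BB_symm hQ hA (l_mem a b) (T_mem _) w
  have e2 : BB hQ (l a b) (T x) w = Th hQ x a b w := BB_symm hQ hA (l_mem a b) (T_mem _) w
  have e3 : BB hQ (l a b) (T y) w = Th hQ y a b w := BB_symm hQ hA (l_mem a b) (T_mem _) w
  have e4 : BB hQ (l a b) (l w x) y = Ps hQ a b x y w := (Ps_cyc3 hQ hA a b x y w).symm
  have e5 : BB hQ (l a b) (l x y) w = Ps hQ a b x y w := rfl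
  have e6 : BB hQ (l a b) (l x w) y = Ps hQ a b x w y := rfl
  rw [e1, e2, e3, e4, e5, e6] at h
  rw [h]; abel

theorem Ps_45 (a b x y z : Q) : Ps hQ a b x z y = - Ps hQ a b x y z := by
  have h1 := Rel1 hQ hA a b x y z
  have h2 := Rel1 hQ hA a z x y b
  rw [Th_34 hQ hA (x * y) a b z, Th_34 hQ hA x a b z, Th_34 hQ hA y a b z] at h1
  have e1 : Ps hQ a z x y b = Ps hQ a b x z y := by rw [Ps_cs hQ hA, Ps_cs hQ hA]
  have e2 : Ps hQ a z x b y = Ps hQ a b x y z := by rw [Ps_cs hQ hA]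
  rw [e1, e2, F5_swap hQ hA, io_neg] at h2
  linear_combination (norm := abel) h1 + h2

theorem Rel1' (a b x y w : Q) : Th hQ (x * y) a b w - Th hQ x a b w - Th hQ y a b w
    = - (3 : ℤ) • Ps hQ a b x y w + io (P4 (l a b) (T x) (T y) w) := by
  rw [Rel1 hQ hA, Ps_45 hQ hA]
  abel

theorem Rel2 (a x y w : Q) : Ta hQ a (x * y) w - Ta hQ a x w - Ta hQ a y w
    = - (3 : ℤ) • Th hQ a x y w + io (P4 (T a) (T x) (T y) w) := by
  have h := BB_rel hQ hA (T_mem a) x y w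
  have e1 : BB hQ (T a) (l x w) y = - Th hQ a x y w := Th_34 hQ hA a x w y
  have e2 : BB hQ (T a) (l w x) y = Th hQ a x y w := by
    show Th hQ a w x y = Th hQ a x y w
    rw [Th_23 hQ hA, Th_34 hQ hA, neg_neg]
  have e3 : BB hQ (T a) (l x y) w = Th hQ a x y w := rfl
  have e4 : BB hQ (T a) (T (x * y)) w = Ta hQ a (x * y) w := rfl
  have e5 : BB hQ (T a) (T x) w = Ta hQ a x w := rfl
  have e6 : BB hQ (T a) (T y) w = Ta hQ a y w := rfl
  rw [e1, e2, e3, e4, e5, e6] at h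
  linear_combination (norm := abel) -h

theorem Ps_34 (a b x y z : Q) : Ps hQ a b y x z = - Ps hQ a b x y z := by
  rw [Ps_cyc3 hQ hA, Ps_cyc3 hQ hA, Ps_45 hQ hA]

theorem Ps_12 (a b x y z : Q) : Ps hQ b a x y z = - Ps hQ a b x y z := by
  rw [Ps_s hQ hA, Ps_34 hQ hA, Ps_s hQ hA x y a b z]

theorem Ps_23 (a b x y z : Q) : Ps hQ a x b y z = - Ps hQ a b x y z := by
  have h3 : ∀ a b x y z : Q, Ps hQ a b x y z = Ps hQ b x a y z := by
    intro a b x y z
    rw [Ps_c hQ hA, Ps_45 hQ hA, Ps_12 hQ hA, neg_neg]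
  rw [h3 a x b y z, Ps_12 hQ hA b x a y z, ← h3 a b x y z]

/-! ### the four-fold forms with two commutator entries vanish -/

theorem six_Th (a x y w : Q) : (6 : ℤ) • Th hQ a x y w = 0 := by
  have h := Rel2 hQ hA a x y w
  have t1 := Ta_two hQ hA a (x * y) w
  have t2 := Ta_two hQ hA a x w
  have t3 := Ta_two hQ hA a y w
  have t4 := congrArg (io (hQ := hQ)) (P4TT_two hQ hA (T_mem a) x y w)
  rw [io_add, io_zero] at t4
  linear_combination (norm := abel) h + h - t1 + t2 + t3 + t4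

include hQ in
theorem F4_zero (a x y w : Q) : P4 (T a) (T x) (T y) w = 0 := by
  have hQ' : AIM (QZ Q) := hQ.quot _ _
  have hy : Der (ld w (T y w)) := der_ldS (T_mem y) w
  have h1 := BB_comm hQ hA (T_mem a) (T_mem w) (T_mem (pz w)) (Ind_T w) x y
    (- dE hQ (T x) (ld w (T y w))) (by
      rw [pe_neg, pe_dE_c hQ hA (T_mem x) (T_mem y) (T_mem (pz x)) (Ind_T x) (Ind_T y) w]
      exact (c3_comm_ta hQ' hA (pz x) (pz y) (pz w)).symm)
  rw [zt_neg_e (T_mem a), P4_def hQ hA (T_mem x) (T_mem y), io_neg] at h1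
  have e1 : Ta hQ a (x * y) w = - BB hQ (T a) (T w) (x * y) := Ta_23 hQ hA a (x * y) w
  have e2 : Ta hQ a (y * x) w = - BB hQ (T a) (T w) (y * x) := Ta_23 hQ hA a (y * x) w
  have r1 := Rel2 hQ hA a x y w
  have r2 := Rel2 hQ hA a y x w
  rw [P4_23 hQ hA (T_mem a) (T_mem y) (T_mem x), Th_23 hQ hA a y x w] at r2
  have s1 := six_Th hQ hA a x y w
  apply io_inj (hQ := hQ)
  rw [io_zero]
  linear_combination (norm := abel) h1 + r1 - r2 - e1 + e2 - s1

theorem eighteen_Ps (a b x y w : Q) : (18 : ℤ) • Ps hQ a b x y w = 0 := by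
  have h := Rel1' hQ hA a b x y w
  have t1 := six_Th hQ hA (x * y) a b w
  have t2 := six_Th hQ hA x a b w
  have t3 := six_Th hQ hA y a b w
  have t4 := congrArg (io (hQ := hQ)) (P4TT_two hQ hA (l_mem a b) x y w)
  rw [io_add, io_zero] at t4
  linear_combination (norm := module) (6 : ℤ) • h - t1 + t2 + t3 + (3 : ℤ) • t4

include hQ in
theorem F5_zero (a b x y w : Q) : P4 (l a b) (T x) (T y) w = 0 := by
  have hQ' : AIM (QZ Q) := hQ.quot _ _
  have h1 := BB_comm hQ hA (T_mem w) (l_mem a b) (l_mem (pz a) (pz b)) (Ind_l a b) x y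
    (dE hQ (T x) (ld y (l a b y))) (by
      rw [pe_dE_c hQ hA (T_mem x) (l_mem a b) (T_mem (pz x)) (Ind_T x) (Ind_l a b) y]
      exact (c3_comm_th hQ' hA (pz x) (pz y) (pz a) (pz b)).symm)
  rw [P4_def hQ hA (T_mem x) (l_mem a b)] at h1
  have e0 : P4 (T w) (T x) (l a b) y = - P4 (l a b) (T x) (T y) w := by
    rw [P4_13 hQ hA (T_mem w) (T_mem x) (l_mem a b)]
    exact P4_neg hQ hA (l_mem a b) (T_mem x) (T_mem _) (T_mem _) (Ind_T x) (Ind_T w)
      (T_mem _) (T_mem _) (Ind_T x) (Ind_T y) (ta_23 hQ' hA (pz x) (pz w) (pz y))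
  rw [e0, io_neg] at h1
  have e1 : Th hQ (x * y) a b w = - BB hQ (T w) (l a b) (x * y) := Th_14 hQ hA (x * y) a b w
  have e2 : Th hQ (y * x) a b w = - BB hQ (T w) (l a b) (y * x) := Th_14 hQ hA (y * x) a b w
  have r1 := Rel1' hQ hA a b x y w
  have r2 := Rel1' hQ hA a b y x w
  rw [P4_23 hQ hA (l_mem a b) (T_mem y) (T_mem x), Ps_34 hQ hA a b x y w] at r2
  have s1 := eighteen_Ps hQ hA a b x y w
  have t4 := congrArg (io (hQ := hQ)) (P4TT_two hQ hA (l_mem a b) x y w)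
  rw [io_add, io_zero] at t4
  -- `io F5 = -6 Ps`
  have s2 : io (P4 (l a b) (T x) (T y) w) + (6 : ℤ) • Ps hQ a b x y w = 0 := by
    linear_combination (norm := abel) h1 + r1 - r2 - e1 + e2
  apply io_inj (hQ := hQ)
  rw [io_zero]
  linear_combination (norm := module) (3 : ℤ) • s2 - s1 - t4

end four

end H56
end LpAim
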