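import Pool.Agent.NH56.AimI

/-!
# Additivity of the lifted `ψ` and vanishing of the remaining four-fold forms
-/

namespace LpAim
namespace H56

open Equiv

universe u v

section four
variable {Q : Type u} [Loop Q] (hQ : AIM Q) (hA : Al (QZ Q))

include hA

theorem BB_three {k g1 g2 g3 : Perm Q} (hk : k ∈ St (1 : Q)) (m1 : g1 ∈ St (1 : Q))
    (m2 : g2 ∈ St (1 : Q)) (m3 : g3 ∈ St (1 : Q)) (w : Q) (p11 : P4 k g1 g1 w = 0)
    (p12 : P4 k g1 g2 w = 0) (p13 : P4 k g1 g3 w = 0) (p23 : P4 k g2 g3 w = 0) :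
    BB hQ k (g1⁻¹ * g2 * g3) w = - BB hQ k g1 w + BB hQ k g2 w + BB hQ k g3 w := by
  have n1 := inv_mem m1
  have c2 : P4 k g1⁻¹ g2 w = 0 := by rw [P4_inv2 hQ hA hk m1 m2, p12, neg_zero]
  have c3 : P4 k (g1⁻¹ * g2) g3 w = 0 := by
    rw [P4_mul2 hQ hA hk n1 m2 m3, P4_inv2 hQ hA hk m1 m3, p13, p23, neg_zero, add_zero]
  rw [BB_mul2 hQ hA hk (mul_mem n1 m2) m3, BB_mul2 hQ hA hk n1 m2, BB_inv2 hQ hA hk m1,
    c2, c3, p11, io_zero]
  abel

theorem BB_l_shift (a b x y z w : Q) :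
    BB hQ (l a b) (l (x * y) (l x y z)) w = BB hQ (l a b) (l (x * y) z) w := by
  have hQ' : AIM (QZ Q) := hQ.quot _ _
  have hk := l_mem a b
  have hm : Der (ld z (l x y z)) := der_ldS (l_mem x y) z
  have e1 : l x y z = z * ld z (l x y z) := (mul_ld _ _).symm
  rw [← BB_A hQ hA hk (x * y) (l x y z) w, ← BB_A hQ hA hk (x * y) z w]
  have h := BB_shift hQ hA hk (A_mem (x * y) w) z hm
  rw [← e1, P4_def hQ hA (mm_mem (A_mem (x * y) w).1 z) (l_mem x y)] at h
  have c : P4 (l a b) (mm (A (x * y) w) z) (l x y) z = 0 :=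
    P4_van hA hk (mm_mem (A_mem (pz x * pz y) (pz w)).1 (pz z)) (l_mem (pz x) (pz y))
      ((Ind_A (x * y) w).mm z) (Ind_l x y) (c3_sq hQ' hA (pz x) (pz y) (pz z) (pz w))
  rw [c, io_zero, add_zero] at h
  exact h

include hQ in
theorem beta_l (a b x y z w : Q) :
    zt (rho (l a b) (ld z (l x y z))) (ld w (mm (l x y) z w)) = 0 := by
  have hQ' : AIM (QZ Q) := hQ.quot _ _
  have hk := l_mem a b
  have hc : Der (ld z (l x y z)) := der_ldS (l_mem x y) z
  have hm := mm_mem (l_mem x y).1 z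
  rw [beta_eval hQ hA hk hm hc w, sub_eq_zero]
  apply zt_pe hm
  have h1 := pe_mm hQ hA hk (l_mem x y) (one_mem (St (1 : Q))) (l_mem (pz a) (pz b))
    (l_mem (pz x) (pz y)) (Ind_l a b) (Ind_l x y) w z
  have h2 := pe_dE_c hQ hA hk (l_mem x y) (l_mem (pz a) (pz b)) (Ind_l a b) (Ind_l x y) z
  rw [c3_add5 hQ' hA] at h1
  rw [h2, Ph_symm hQ' hA (l_mem _ _) (l_mem _ _)]
  exact h1

include hQ in
theorem F6_eq (a b x y z w : Q) :
    P4 (l a b) (T w) (l x y) z = - P4 (l a b) (l x y) (T z) w := by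
  have hQ' : AIM (QZ Q) := hQ.quot _ _
  rw [P4_23 hQ hA (l_mem a b) (l_mem x y) (T_mem z)]
  exact P4_neg hQ hA (l_mem a b) (T_mem z) (T_mem _) (l_mem _ _) (Ind_T w) (Ind_l x y)
    (T_mem _) (l_mem _ _) (Ind_T z) (Ind_l x y) (th_14 hQ' hA (pz w) (pz x) (pz y) (pz z))

/-- the cocycle identity with its correction -/
theorem Ps_coc (a b x y z w : Q) : Ps hQ a b x y (z * w) = Ps hQ a b x y z
    - Ps hQ a b (x * y) z w + Ps hQ a b x (y * z) w + Ps hQ a b y z w
    + io (P4 (l a b) (l x y) (T z) w) := by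
  have hQ' : AIM (QZ Q) := hQ.quot _ _
  have hk := l_mem a b
  have h1 := BB_mulM hQ hA hk (l_mem x y) z w
  rw [beta_l hQ hA, F6_eq hQ hA a b x y z w, neg_neg, add_zero] at h1
  have m1 := l_mem (x * y) (l x y z)
  have m2 := l_mem x (y * z)
  have m3 := l_mem y z
  have hz : ∃ c, IsZ2 c ∧ l (pz x) (pz y) (pz z) = pz z * c :=
    ⟨_, hA _ (l_mem (pz x) (pz y)) (pz z), (mul_ld _ _).symm⟩
  have iz : Ind (l (x * y) (l x y z)) (l (pz x * pz y) (l (pz x) (pz y) (pz z))) := by
    have := Ind_l (x * y) (l x y z)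
    rw [Ind_l x y z] at this
    exact this
  have i2 : Ind (l x (y * z)) (l (pz x) (pz y * pz z)) := Ind_l x (y * z)
  have i3 := Ind_l y z
  have p11 : P4 (l a b) (l (x * y) (l x y z)) (l (x * y) (l x y z)) w = 0 :=
    P4_van hA hk (l_mem _ _) (l_mem _ _) iz iz (ps_13_self hQ' hA _ _ _ _)
  have p12 : P4 (l a b) (l (x * y) (l x y z)) (l x (y * z)) w = 0 :=
    P4_van hA hk (l_mem _ _) (l_mem _ _) iz i2
      (c3_g12 hQ' hA (pz x) (pz y) (pz z) _ (pz w) hz)
  have p13 : P4 (l a b) (l (x * y) (l x y z)) (l y z) w = 0 :=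
    P4_van hA hk (l_mem _ _) (l_mem _ _) iz i3
      (c3_g13 hQ' hA (pz x) (pz y) (pz z) _ (pz w) hz)
  have p23 : P4 (l a b) (l x (y * z)) (l y z) w = 0 :=
    P4_van hA hk (l_mem _ _) (l_mem _ _) i2 i3
      (c3_g23 hQ' hA (pz x) (pz y) (pz z) (pz w))
  have h2 := BB_three hQ hA hk m1 m2 m3 w p11 p12 p13 p23
  rw [← mm_l, BB_l_shift hQ hA] at h2
  rw [h2] at h1
  unfold Ps
  rw [h1]
  abel

theorem Ps_comm (a b x y z w : Q) : Ps hQ a b (x * y) z w = Ps hQ a b (y * x) z w
    + io (P4 (l a b) (l x y) (T z) w) := by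
  have hQ' : AIM (QZ Q) := hQ.quot _ _
  have hk := l_mem a b
  have h1 := BB_comm hQ hA hk (r_mem z w) (r_mem (pz z) (pz w)) (Ind_r z w) x y
    (- dE hQ (T x) (ld w (l y z w))) (by
      rw [pe_neg, pe_dE_c hQ hA (T_mem x) (l_mem y z) (T_mem (pz x)) (Ind_T x) (Ind_l y z) w]
      exact (c3_comm_r hQ' hA (pz x) (pz y) (pz z) (pz w)).symm)
  rw [zt_neg_e hk, P4_def hQ hA (T_mem x) (l_mem y z), io_neg,
    BB_r hQ hA hk (x * y) z w, BB_r hQ hA hk (y * x) z w] at h1
  have e : P4 (l a b) (T x) (l y z) w = P4 (l a b) (l x y) (T z) w := by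
    rw [P4_23 hQ hA hk (l_mem x y) (T_mem z)]
    refine P4_congr hA hk (T_mem _) (l_mem _ _) (Ind_T x) (Ind_l y z)
      (T_mem _) (l_mem _ _) (Ind_T z) (Ind_l x y) ?_
    show th (pz x) (pz y) (pz z) (pz w) = th (pz z) (pz x) (pz y) (pz w)
    rw [th_12 hQ' hA (pz z) (pz x), th_23 hQ' hA (pz x) (pz z), neg_neg]
  rw [e] at h1
  unfold Ps
  linear_combination (norm := abel) - h1

theorem Ps_add3_F6 (a b x y z w : Q) :
    Ps hQ a b (x * y) z w = Ps hQ a b x z w + Ps hQ a b y z w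
      ∧ io (hQ := hQ) (P4 (l a b) (l x y) (T z) w) = 0 := by
  have hQ' : AIM (QZ Q) := hQ.quot _ _
  have hk := l_mem a b
  set D : Q → Q → Q → Q → E2 hQ := fun x y z w =>
    Ps hQ a b (x * y) z w - Ps hQ a b x z w - Ps hQ a b y z w with hD
  set f : Q → Q → Q → Q → E2 hQ := fun x y z w => io (P4 (l a b) (l x y) (T z) w) with hf
  have coc : ∀ x y z w : Q, Ps hQ a b x y (z * w) = Ps hQ a b x y z - Ps hQ a b (x * y) z w
      + Ps hQ a b x (y * z) w + Ps hQ a b y z w + f x y z w := fun x y z w =>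
    Ps_coc hQ hA a b x y z w
  have comm : ∀ x y z w : Q, Ps hQ a b (x * y) z w = Ps hQ a b (y * x) z w + f x y z w :=
    fun x y z w => Ps_comm hQ hA a b x y z w
  have f12 : ∀ x y z w : Q, f y x z w = - f x y z w := by
    intro x y z w
    simp only [hf]
    rw [← io_neg, P4_23 hQ hA hk (l_mem y x) (T_mem z), P4_23 hQ hA hk (l_mem x y) (T_mem z)]
    congr 1
    exact P4_neg hQ hA hk (T_mem z) (T_mem _) (l_mem _ _) (Ind_T z) (Ind_l y x)
      (T_mem _) (l_mem _ _) (Ind_T z) (Ind_l x y) (th_23 hQ' hA (pz z) (pz y) (pz x) (pz w))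
  have f23 : ∀ x y z w : Q, f x z y w = - f x y z w := by
    intro x y z w
    simp only [hf]
    rw [← io_neg, P4_23 hQ hA hk (l_mem x z) (T_mem y), P4_23 hQ hA hk (l_mem x y) (T_mem z)]
    congr 1
    exact P4_neg hQ hA hk (T_mem z) (T_mem _) (l_mem _ _) (Ind_T y) (Ind_l x z)
      (T_mem _) (l_mem _ _) (Ind_T z) (Ind_l x y) (th_13 hQ' hA (pz y) (pz x) (pz z) (pz w))
  have star : ∀ x y z w : Q, D x y z w + D y z x w + D z w x y = f x y z w := by
    intro x y z w
    have h := coc x y z w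
    have e1 : Ps hQ a b x (y * z) w = - Ps hQ a b (y * z) x w := Ps_34 hQ hA a b (y * z) x w
    have e2 : Ps hQ a b x y (z * w) = Ps hQ a b (z * w) x y := Ps_cyc3 hQ hA a b x y (z * w)
    have e3 : Ps hQ a b y x w = - Ps hQ a b x y w := Ps_34 hQ hA a b x y w
    have e4 : Ps hQ a b z x w = - Ps hQ a b x z w := Ps_34 hQ hA a b x z w
    have e5 : Ps hQ a b z x y = Ps hQ a b x y z := (Ps_cyc3 hQ hA a b x y z).symm
    have e6 : Ps hQ a b w x y = Ps hQ a b x y w := (Ps_cyc3 hQ hA a b x y w).symm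
    simp only [hD]
    rw [e1, e2] at h
    rw [e3, e4, e5, e6, h]
    abel
  have sym : ∀ x y z w : Q, D x y z w = D y x z w + f x y z w := by
    intro x y z w
    simp only [hD]
    rw [comm x y z w]; abel
  have anti : ∀ x y z w : Q, D x y z w = - D x y w z := by
    intro x y z w
    simp only [hD]
    rw [Ps_45 hQ hA a b (x * y) w z, Ps_45 hQ hA a b x w z, Ps_45 hQ hA a b y w z]; abel
  have i1 : ∀ x y z w : Q, D x y z w + D x y z w + D y z x w + D x z y w = f x y z w := by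
    intro x y z w
    have h1 := star x y z w
    have h2 := star y x z w
    have h3 := sym x y z w
    have h4 := anti z w y x
    have h5 := f12 x y z w
    linear_combination (norm := abel) h1 + h2 - h4 + h3 + h5
  have rule : ∀ x y z w : Q, D x y z w = D y z x w := by
    intro x y z w
    have h1 := i1 x y z w
    have h2 := i1 y z x w
    have h3 := sym z x y w
    have h4 := sym y x z w
    have g1 := f12 x y z w
    have g2 := f12 x z y w
    have g3 := f23 x y z w
    have g4 := f23 y x z w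
    -- f y z x w = f x y z w
    have g5 : f y z x w = f x y z w := by
      rw [g4, g1, neg_neg]
    have g6 : f z x y w = f x y z w := by rw [g2, g3, neg_neg]
    rw [g5] at h2
    rw [g6] at h3
    rw [g1] at h4
    linear_combination (norm := abel) h1 - h2 + h3 + h4
  have four : ∀ x y z w : Q, (4 : ℤ) • D x y z w = (2 : ℤ) • f x y z w := by
    intro x y z w
    have h1 := i1 x y z w
    have h2 := sym x z y w
    have h3 := f23 x y z w
    have h4 := rule x y z w
    have h5 := rule z x y w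
    rw [h3] at h2
    linear_combination (norm := abel) h1 + h4 - h5 - h2
  have three : ∀ x y z w : Q, (3 : ℤ) • D x y z w = f x y z w := by
    intro x y z w
    have h1 := star x y z w
    have h2 : D z w x y = D x y z w := by
      rw [rule x y z w, anti y z x w, rule y z w x, anti z w y x, neg_neg]
    rw [h2, ← rule x y z w] at h1
    linear_combination (norm := abel) h1
  have hDf : ∀ x y z w : Q, D x y z w = f x y z w := by
    intro x y z w
    have h1 := four x y z w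
    have h2 := three x y z w
    linear_combination (norm := abel) h1 - h2
  have hf0 : ∀ x y z w : Q, f x y z w = 0 := by
    intro x y z w
    have h1 := sym y x z w
    rw [hDf, hDf x y] at h1
    exact right_eq_add.1 h1
  refine ⟨?_, hf0 x y z w⟩
  have h0 : D x y z w = 0 := by rw [hDf, hf0]
  simp only [hD] at h0
  linear_combination (norm := abel) h0

end four

end H56
end LpAim
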