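import Pool.Agent.NH56.AimJ

/-!
# Nilpotent loops with abelian inner mapping group have class at most three
-/

namespace LpAim
namespace H56

open Equiv

universe u v

section four
variable {Q : Type u} [Loop Q] (hQ : AIM Q) (hA : Al (QZ Q))

include hQ hA

theorem F6_zero (a b x y z w : Q) : P4 (l a b) (l x y) (T z) w = 0 := by
  apply io_inj (hQ := hQ)
  rw [io_zero]
  exact (Ps_add3_F6 hQ hA a b x y z w).2

omit hQ in
theorem Ps_add3 {hQ : AIM Q} (a b x y z w : Q) :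
    Ps hQ a b (x * y) z w = Ps hQ a b x z w + Ps hQ a b y z w :=
  (Ps_add3_F6 hQ hA a b x y z w).1

omit hQ in
theorem Ps_add4 {hQ : AIM Q} (a b c x y d : Q) :
    Ps hQ a b c (x * y) d = Ps hQ a b c x d + Ps hQ a b c y d := by
  have h1 := Ps_34 hQ hA a b (x * y) c d
  have h2 := Ps_34 hQ hA a b x c d
  have h3 := Ps_34 hQ hA a b y c d
  have h4 := Ps_add3 hA (hQ := hQ) a b x y c d
  rw [h1, h2, h3, h4]; abel

omit hQ in
theorem Ps_add5 {hQ : AIM Q} (a b c d x y : Q) :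
    Ps hQ a b c d (x * y) = Ps hQ a b c d x + Ps hQ a b c d y := by
  have h1 := Ps_45 hQ hA a b c (x * y) d
  have h2 := Ps_45 hQ hA a b c x d
  have h3 := Ps_45 hQ hA a b c y d
  have h4 := Ps_add4 hA (hQ := hQ) a b c x y d
  rw [h1, h2, h3, h4]; abel

theorem F7_zero (a b x y c d z : Q) : P4 (l a b) (l x y) (l c d) z = 0 := by
  have hQ' : AIM (QZ Q) := hQ.quot _ _
  have hk := l_mem a b
  have hc : Der (ld z (l x y z)) := der_ldS (l_mem x y) z
  have hm : Der (l (x * y) z (ld z (l x y z))) := Der_St hc (l_mem _ _)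
  have e1 : x * (y * z) = ((x * y) * z) * l (x * y) z (ld z (l x y z)) := by
    rw [← l_spec, mul_ld, ← l_spec]
  have h1 := BB_shift hQ hA hk (l_mem c d) ((x * y) * z) hm
  rw [← e1] at h1
  have h2 : zt (l a b) (dE hQ (mm (l c d) ((x * y) * z)) (l (x * y) z (ld z (l x y z)))).val
      = P4 (l a b) (l x y) (l c d) z := by
    rw [← P4_def hQ hA (l_mem x y) (l_mem c d)]
    apply zt_pe hk
    rw [pe_mm hQ hA (l_mem c d) (l_mem x y) (l_mem (x * y) z) (l_mem (pz c) (pz d))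
      (l_mem (pz x) (pz y)) (Ind_l c d) (Ind_l x y) ((x * y) * z) z,
      pe_dE_c hQ hA (l_mem x y) (l_mem c d) (l_mem (pz x) (pz y)) (Ind_l x y) (Ind_l c d) z,
      c3_add5 hQ' hA]
  rw [h2] at h1
  have h3 : Ps hQ a b c d (x * (y * z)) = Ps hQ a b c d ((x * y) * z)
      + io (P4 (l a b) (l x y) (l c d) z) := h1
  rw [Ps_add5 hA, Ps_add5 hA, Ps_add5 hA, Ps_add5 hA] at h3
  apply io_inj (hQ := hQ)
  rw [io_zero]
  linear_combination (norm := abel) - h3

/-- reduction of right associator mappings -/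
theorem P4_r3' {k g : Perm Q} (hk : k ∈ St (1 : Q)) (hg : g ∈ St (1 : Q)) (a b z : Q) :
    P4 k g (r b z) a = - P4 k g (l a b) z := by
  have hQ' : AIM (QZ Q) := hQ.quot _ _
  obtain ⟨G, hG, i⟩ := exists_Ind hg
  exact P4_neg hQ hA hk hg hG (r_mem _ _) i (Ind_r b z) hG (l_mem _ _) i (Ind_l a b)
    (Ph_r hQ' hA hG (pz a) (pz b) (pz z))

theorem P4_zero_lem {g t : Perm Q} (hg : g ∈ St (1 : Q)) (ht : t ∈ St (1 : Q)) (u : Q)
    (hT : ∀ x, P4 g t (T x) u = 0) (hl : ∀ x y v, P4 g t (l x y) v = 0) :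
    ∀ k ∈ St (1 : Q), P4 k g t u = 0 := by
  refine gens_induction ?_ ?_ ?_ P4_one ?_ ?_
  · intro x
    rw [P4_12 hQ hA (T_mem x) hg ht, P4_23 hQ hA hg (T_mem x) ht]
    exact hT x
  · intro x y
    rw [P4_12 hQ hA (l_mem x y) hg ht, P4_23 hQ hA hg (l_mem x y) ht]
    exact hl x y u
  · intro x y
    rw [P4_12 hQ hA (r_mem x y) hg ht, P4_23 hQ hA hg (r_mem x y) ht, P4_r3' hQ hA hg ht,
      hl, neg_zero]
  · intro a b ha hb h1 h2
    rw [P4_mul1 hA ha hb hg ht, h1, h2, add_zero]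
  · intro a ha h1
    rw [P4_inv1 hA ha hg ht, h1, neg_zero]

theorem P4_ll {k : Perm Q} (hk : k ∈ St (1 : Q)) (a b c d u : Q) :
    P4 k (l a b) (l c d) u = 0 :=
  P4_zero_lem hQ hA (l_mem a b) (l_mem c d) u (fun x => F6_zero hQ hA a b c d x u)
    (fun x y v => F7_zero hQ hA a b c d x y v) k hk

theorem P4_Tl {k : Perm Q} (hk : k ∈ St (1 : Q)) (x c d u : Q) :
    P4 k (T x) (l c d) u = 0 :=
  P4_zero_lem hQ hA (T_mem x) (l_mem c d) u
    (fun y => by
      rw [P4_12 hQ hA (T_mem x) (l_mem c d) (T_mem y)]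
      exact F5_zero hQ hA c d x y u)
    (fun a b v => by
      rw [P4_13 hQ hA (T_mem x) (l_mem c d) (l_mem a b)]
      exact F6_zero hQ hA a b c d x v) k hk

theorem P4_TT {k : Perm Q} (hk : k ∈ St (1 : Q)) (x y u : Q) :
    P4 k (T x) (T y) u = 0 :=
  P4_zero_lem hQ hA (T_mem x) (T_mem y) u
    (fun z => F4_zero hQ hA x y z u)
    (fun a b v => by
      rw [P4_13 hQ hA (T_mem x) (T_mem y) (l_mem a b)]
      exact F5_zero hQ hA a b y x v) k hk

theorem P4_l {k g : Perm Q} (hk : k ∈ St (1 : Q)) (hg : g ∈ St (1 : Q)) (c d u : Q) :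
    P4 k g (l c d) u = 0 := by
  rw [P4_23 hQ hA hk hg (l_mem c d), P4_13 hQ hA hk (l_mem c d) hg]
  exact P4_zero_lem hQ hA (l_mem c d) hk u
    (fun x => by
      rw [P4_13 hQ hA (l_mem c d) hk (T_mem x), P4_12 hQ hA (T_mem x) hk (l_mem c d)]
      exact P4_Tl hQ hA hk x c d u)
    (fun x y v => by
      rw [P4_12 hQ hA (l_mem c d) hk (l_mem x y)]
      exact P4_ll hQ hA hk c d x y v) g hg

theorem P4_T {k g : Perm Q} (hk : k ∈ St (1 : Q)) (hg : g ∈ St (1 : Q)) (y u : Q) :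
    P4 k g (T y) u = 0 := by
  rw [P4_23 hQ hA hk hg (T_mem y), P4_13 hQ hA hk (T_mem y) hg]
  exact P4_zero_lem hQ hA (T_mem y) hk u
    (fun x => by
      rw [P4_12 hQ hA (T_mem y) hk (T_mem x)]
      exact P4_TT hQ hA hk y x u)
    (fun a b v => P4_l hQ hA (T_mem y) hk a b v) g hg

theorem P4_vanish {k g t : Perm Q} (hk : k ∈ St (1 : Q)) (hg : g ∈ St (1 : Q))
    (ht : t ∈ St (1 : Q)) (u : Q) : P4 k g t u = 0 := by
  rw [P4_13 hQ hA hk hg ht]
  exact P4_zero_lem hQ hA hg hk u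
    (fun x => P4_T hQ hA hg hk x u)
    (fun a b v => P4_l hQ hA hg hk a b v) t ht

/-- If the central quotient has class at most three, so does the loop. -/
theorem Al_of_Al : Al Q := by
  intro t ht u g hg
  obtain ⟨a, ha⟩ := central_of_Ph (g := g) (w := ld u (t u)) (lev_Z2 hA hg ht u)
    (fun h hh => P4_vanish hQ hA hh hg ht u)
  rw [ha]
  exact cen_mul _ a

end four

/-- A nilpotent loop with abelian inner mapping group has class at most three. -/
theorem Al_of_nilp {Q : Type u} {i : Loop Q} (hN : Nilp Q i) : AIM Q → Al Q := by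
  induction hN with
  | triv Q i h =>
    intro _ g _ w h' _
    rw [Subsingleton.elim (h' (ld w (g w))) (ld w (g w))]
  | step Q i h ih =>
    intro hQ
    exact Al_of_Al hQ (ih (hQ.quot _ _))

end H56
end LpAim
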