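import Pool.Agent.NH56.AimK

/-!
# The upper central series and the class bound
-/

namespace LpAim
namespace H56

open Equiv

universe u v

/-- the upper central series -/
def Zs (Q : Type u) [Loop Q] : ℕ → Set Q
  | 0 => {1}
  | k + 1 => {a | ∀ x y : Q,
      (∃ n ∈ Zs Q k, x * a = (a * x) * n) ∧
      (∃ n ∈ Zs Q k, a * (x * y) = ((a * x) * y) * n) ∧
      (∃ n ∈ Zs Q k, x * (a * y) = ((x * a) * y) * n) ∧
      (∃ n ∈ Zs Q k, x * (y * a) = ((x * y) * a) * n)}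

section
variable {Q : Type u} [Loop Q]

theorem ex_iff (S : Set Q) (a b : Q) : (∃ n ∈ S, a = b * n) ↔ ld b a ∈ S := by
  constructor
  · rintro ⟨n, hn, rfl⟩
    rw [ld_mul]; exact hn
  · intro h
    exact ⟨_, h, (mul_ld _ _).symm⟩

theorem mem_Zs_succ (k : ℕ) (a : Q) : a ∈ Zs Q (k + 1) ↔ ∀ x y : Q,
    ld (a * x) (x * a) ∈ Zs Q k ∧ ld ((a * x) * y) (a * (x * y)) ∈ Zs Q k ∧
    ld ((x * a) * y) (x * (a * y)) ∈ Zs Q k ∧ ld ((x * y) * a) (x * (y * a)) ∈ Zs Q k := by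
  simp only [← ex_iff]
  rfl

theorem ld_eq_one_iff (a b : Q) : ld b a = 1 ↔ a = b := by
  constructor
  · intro h
    have := mul_ld b a
    rw [h, lmul_one] at this
    exact this.symm
  · rintro rfl; exact ld_self _

theorem mem_Zs_one (a : Q) : a ∈ Zs Q 1 ↔ pz a = 1 := by
  rw [mem_Zs_succ, ← pz_one, eq_comm, pz_eq]
  simp only [show ∀ b : Q, b ∈ Zs Q 0 ↔ b = 1 from fun b => Iff.rfl, ld_eq_one_iff]
  constructor
  · intro h
    have hfix : ∀ g ∈ St (1 : Q), g a = a := by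
      intro g hg
      rw [St_one_eq_closure] at hg
      refine Subgroup.closure_induction (p := fun g _ => g a = a) ?_ ?_ ?_ ?_ hg
      · rintro g (⟨x, rfl⟩ | ⟨x, y, rfl⟩ | ⟨x, y, rfl⟩)
        · rw [T_apply, (h x x).1, mul_rd]
        · rw [l_apply, (h x y).2.2.2, ld_mul]
        · rw [r_apply, ← (h x y).2.1, mul_rd]
      · rfl
      · intro g k _ _ h1 h2; rw [Perm.mul_apply, h2, h1]
      · intro g _ h1; rw [Perm.inv_eq_iff_eq, h1]
    have : a = 1 * (⟨a, hfix⟩ : Zn Q).val := (lone_mul a).symm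
    rw [this]
    exact cen_mul 1 _
  · intro h x y
    obtain ⟨z, hz⟩ := cen_mul_z h
    rw [lone_mul] at hz
    subst hz
    refine ⟨(z.comm x).symm, ?_, ?_, ?_⟩
    · rw [z.comm, z.comm, z.Rz]
    · rw [z.comm, z.Lz, z.Rz]
    · rw [z.Lz]

theorem mem_Zs_succ_pz (k : ℕ) : ∀ a : Q, a ∈ Zs Q (k + 1) ↔ pz a ∈ Zs (QZ Q) k := by
  induction k with
  | zero => intro a; exact mem_Zs_one a
  | succ k ih =>
    intro a
    rw [mem_Zs_succ (k + 1) a, mem_Zs_succ k (pz a)]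
    constructor
    · intro h X Y
      obtain ⟨x, rfl⟩ := pz_surj X
      obtain ⟨y, rfl⟩ := pz_surj Y
      obtain ⟨h1, h2, h3, h4⟩ := h x y
      exact ⟨(ih _).1 h1, (ih _).1 h2, (ih _).1 h3, (ih _).1 h4⟩
    · intro h x y
      obtain ⟨h1, h2, h3, h4⟩ := h (pz x) (pz y)
      exact ⟨(ih _).2 h1, (ih _).2 h2, (ih _).2 h3, (ih _).2 h4⟩

end

theorem nilp_of_Zs (n : ℕ) : ∀ (Q : Type u) [i : Loop Q], Zs Q n = Set.univ → Nilp Q i := by
  induction n with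
  | zero =>
    intro Q i h
    refine Nilp.triv Q i ⟨fun a b => ?_⟩
    have ha : a ∈ Zs Q 0 := h ▸ Set.mem_univ a
    have hb : b ∈ Zs Q 0 := h ▸ Set.mem_univ b
    have ha' : a = 1 := ha
    have hb' : b = 1 := hb
    rw [ha', hb']
  | succ n ih =>
    intro Q i h
    refine Nilp.step Q i (ih (QZ Q) ?_)
    ext X
    obtain ⟨x, rfl⟩ := pz_surj X
    rw [← mem_Zs_succ_pz, h]
    simp

theorem Zs_three_of_Al {Q : Type u} [Loop Q] (hA : Al Q) : Zs Q 3 = Set.univ := by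
  ext a
  simp only [Set.mem_univ, iff_true]
  rw [mem_Zs_succ_pz, mem_Zs_succ_pz]
  -- inner mappings act trivially on the double quotient
  have key : ∀ g ∈ St (1 : Q), ∀ w, pz (pz (g w)) = pz (pz w) := by
    intro g hg w
    have h := pz_of_Al (hA g hg w)
    rw [h, eq_comm, pz_eq]
    exact cen_mul _ _
  have hT : ∀ X Y : QZ (QZ Q), T X Y = Y := by
    intro X Y
    obtain ⟨x', rfl⟩ := pz_surj X
    obtain ⟨y', rfl⟩ := pz_surj Y
    obtain ⟨x, rfl⟩ := pz_surj x'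
    obtain ⟨y, rfl⟩ := pz_surj y'
    rw [← Ind_T, ← Ind_T]
    exact key _ (T_mem x) y
  have hl : ∀ X Y Z : QZ (QZ Q), l X Y Z = Z := by
    intro X Y Z
    obtain ⟨x', rfl⟩ := pz_surj X
    obtain ⟨y', rfl⟩ := pz_surj Y
    obtain ⟨z', rfl⟩ := pz_surj Z
    obtain ⟨x, rfl⟩ := pz_surj x'
    obtain ⟨y, rfl⟩ := pz_surj y'
    obtain ⟨z, rfl⟩ := pz_surj z'
    rw [← Ind_l, ← Ind_l]
    exact key _ (l_mem x y) z
  have hassoc : ∀ X Y Z : QZ (QZ Q), X * (Y * Z) = (X * Y) * Z := by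
    intro X Y Z
    rw [l_spec, hl]
  have hcomm : ∀ X Y : QZ (QZ Q), X * Y = Y * X := by
    intro X Y
    have h := hT X Y
    rw [T_apply] at h
    exact ((eq_rd_iff _ _ _).1 h.symm).symm
  rw [mem_Zs_succ]
  intro X Y
  simp only [show ∀ b : QZ (QZ Q), b ∈ Zs (QZ (QZ Q)) 0 ↔ b = 1 from fun b => Iff.rfl,
    ld_eq_one_iff]
  exact ⟨hcomm _ _, hassoc _ _ _, hassoc _ _ _, hassoc _ _ _⟩

/-- **Main theorem.**  A nilpotent loop with abelian inner mapping group has nilpotency class at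
most three. -/
theorem class_le_three {Q : Type u} [i : Loop Q]
    (hcomm : ∀ g ∈ gens Q, ∀ h ∈ gens Q, g * h = h * g) (n : ℕ) (hn : Zs Q n = Set.univ) :
    Zs Q 3 = Set.univ :=
  Zs_three_of_Al (Al_of_nilp (nilp_of_Zs n Q hn) (AIM_of_gens hcomm))

end H56
end LpAim
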